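import Pool.Agent.N103.ZDefs
import Pool.Agent.W574.SM.Charts
import Pool.Agent.W574.MO.Defs

set_option autoImplicit false

/-! # The zeta functions twisted by the quadratic character

Let `π` be a log resolution of `F = 0` with the irreducible components `E_i` of the total transform,
with the numerical data `(N_i, ν_i)`. If `N_i` is even for all `i ∈ I`, then `F ∘ π` is locally near
the stratum `E_I°` of the form `u w²`, with a unit `u`, where `w` is a monomial in the equations of the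
`E_i`, `i ∈ I`. The double covers `y² = u` of `E_I°` glue to a double cover `Ẽ_I° → E_I°`.
The motivic zeta function twisted by the quadratic character is
`∑_I ([Ẽ_I° ∩ π⁻¹(0)] - [E_I° ∩ π⁻¹(0)]) ∏_{i ∈ I} (L - 1) L^(-ν_i) T^(N_i) / (1 - L^(-ν_i) T^(N_i))`, where
`I` runs over the sets such that `N_i` is even for all `i ∈ I`. It is equal to
`∑_l ([X̃_l] - [X_l]) L^(- l d) Tˡ` (`d` the number of the variables), where `X_l` is the space of the arcs
`φ` at the origin, modulo `t^(l+1)`, with `F(φ) = c tˡ + ⋯`, `c ≠ 0`, and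
`X̃_l = {(φ, y) | y² = c}`. -/

namespace Pool.Agent.J4H46.MQ

open Pool.Agent.N103 Pool.Agent.W574.SM Pool.Agent.W574.MO

open Polynomial

open Classical in
/-- The branch points of the double cover `y² = P(v)` of the projective line `ℂ ∪ {∞}` with the
coordinate `v`: the zeros of `P` of odd multiplicity, and the point `∞ = none`, if the degree of `P` is
odd. -/
noncomputable def branch (P : ℂ[X]) : Finset (Option ℂ) :=
  ((P.roots.toFinset.filter fun z => Odd (P.rootMultiplicity z)).map Function.Embedding.some) ∪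
    (if Odd P.natDegree then {none} else ∅)

/-- The polynomial `P(v)` on the exceptional curve `E`, with the coordinate `v`, such that, up to
squares, the restriction of `F ∘ π / u ^ (N_E)` (if `t = false`), resp. of
`F ∘ π / (u ^ (N_E) H ^ a)` (if `t = true` and `a` is even, where `H = 0` is the strict transform of the
hypersurface `f₀ + ∑ y_j f_j = 0`, which contains `E × {0}`), to `E × {0}` is `P(v)`. Here
`u = 0` is the equation of `E`, and `F ∘ π = u ^ (N_E) v ^ a₁ h (g₀ + ∑ y_j g_j) ^ a`. -/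
noncomputable def edge {κ : Type} (a a₁ : ℕ) (t : Bool) (h : MvPolynomial (Fin 2) ℂ)
    (g : Option κ → MvPolynomial (Fin 2) ℂ) : ℂ[X] :=
  X ^ a₁ * (res0 h * if t then 1 else res0 (g none) ^ a)

/-- `GermX Φ ℓ β a h g a₀ n₀ a₁ n₁ Z`: the same rules as those of `GermZeta Φ ℓ a h g a₀ n₀ a₁ n₁ Z` (see
there for the rules `unit`, `curveV`, `curveU` and `blowup` and for the notations), with one
difference: in the rule `blowup` the coefficient of the stratum of the points of the exceptional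
curve `E` which are not in `S` is `ℓ - |S| + β (branch P)` instead of `ℓ - |S|`, where
`P = edge a a₁ t (hc 0) (gc 0)`. -/
inductive GermX {κ R : Type} [CommRing R] (Φ : ℕ → ℕ → R) (ℓ : R) (β : Finset (Option ℂ) → R)
    (a : ℕ) :
    MvPolynomial (Fin 2) ℂ → (Option κ → MvPolynomial (Fin 2) ℂ) → ℕ → ℕ → ℕ → ℕ → R → Prop
  | unit (h : MvPolynomial (Fin 2) ℂ) (g : Option κ → MvPolynomial (Fin 2) ℂ) (a₀ n₀ a₁ n₁ : ℕ)
      (hh : MvPolynomial.constantCoeff h ≠ 0) (t : Bool) (ht : HasType g t) :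
      GermX Φ ℓ β a h g a₀ n₀ a₁ n₁ (Φ a₀ n₀ * Φ a₁ n₁ * typeFactor Φ a t)
  | curveV (h : MvPolynomial (Fin 2) ℂ) (g : Option κ → MvPolynomial (Fin 2) ℂ) (a₀ n₀ mh mg : ℕ)
      (hm : 1 ≤ mh + a * mg) (q kh : MvPolynomial (Fin 2) ℂ)
      (k : Option κ → MvPolynomial (Fin 2) ℂ) (hh : h = q ^ mh * kh)
      (hg : ∀ j, g j = q ^ mg * k j) (h0 : MvPolynomial.constantCoeff q = 0)
      (h1 : MvPolynomial.constantCoeff (MvPolynomial.pderiv 1 q) ≠ 0)
      (hkh : MvPolynomial.constantCoeff kh ≠ 0) (t : Bool) (ht : HasType k t) :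
      GermX Φ ℓ β a h g a₀ n₀ 0 1 (Φ a₀ n₀ * Φ (mh + a * mg) 1 * typeFactor Φ a t)
  | curveU (h : MvPolynomial (Fin 2) ℂ) (g : Option κ → MvPolynomial (Fin 2) ℂ) (a₁ n₁ mh mg : ℕ)
      (hm : 1 ≤ mh + a * mg) (q kh : MvPolynomial (Fin 2) ℂ)
      (k : Option κ → MvPolynomial (Fin 2) ℂ) (hh : h = q ^ mh * kh)
      (hg : ∀ j, g j = q ^ mg * k j) (h0 : MvPolynomial.constantCoeff q = 0)
      (h1 : MvPolynomial.constantCoeff (MvPolynomial.pderiv 0 q) ≠ 0)
      (hkh : MvPolynomial.constantCoeff kh ≠ 0) (t : Bool) (ht : HasType k t) :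
      GermX Φ ℓ β a h g 0 1 a₁ n₁ (Φ a₁ n₁ * Φ (mh + a * mg) 1 * typeFactor Φ a t)
  | blowup (h : MvPolynomial (Fin 2) ℂ) (g : Option κ → MvPolynomial (Fin 2) ℂ)
      (a₀ n₀ a₁ n₁ mh mg : ℕ) (hm : 1 ≤ mh + a * mg)
      (hc : ℂ → MvPolynomial (Fin 2) ℂ) (gc : ℂ → Option κ → MvPolynomial (Fin 2) ℂ)
      (hI : MvPolynomial (Fin 2) ℂ) (gI : Option κ → MvPolynomial (Fin 2) ℂ)
      (hhc : ∀ c, MvPolynomial.aeval (chart c) h = MvPolynomial.X 0 ^ mh * hc c)
      (hgc : ∀ c j, MvPolynomial.aeval (chart c) (g j) = MvPolynomial.X 0 ^ mg * gc c j)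
      (hhI : MvPolynomial.aeval chartI h = MvPolynomial.X 1 ^ mh * hI)
      (hgI : ∀ j, MvPolynomial.aeval chartI (g j) = MvPolynomial.X 1 ^ mg * gI j)
      (S : Finset ℂ) (h0S : 0 ∈ S) (t : Bool)
      (hS : ∀ c ∉ S, MvPolynomial.constantCoeff (hc c) ≠ 0 ∧ HasType (gc c) t)
      (Zc : ℂ → R) (ZI : R)
      (h0 : GermX Φ ℓ β a (hc 0) (gc 0) (a₀ + a₁ + (mh + a * mg)) (n₀ + n₁) a₁ n₁ (Zc 0))
      (hcS : ∀ c ∈ S, c ≠ 0 →
        GermX Φ ℓ β a (hc c) (gc c) (a₀ + a₁ + (mh + a * mg)) (n₀ + n₁) 0 1 (Zc c))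
      (hZI : GermX Φ ℓ β a hI gI a₀ n₀ (a₀ + a₁ + (mh + a * mg)) (n₀ + n₁) ZI) :
      GermX Φ ℓ β a h g a₀ n₀ a₁ n₁ (ZI + ∑ c ∈ S, Zc c +
        (ℓ - (S.card : R) + β (branch (edge a a₁ t (hc 0) (gc 0)))) *
          (Φ (a₀ + a₁ + (mh + a * mg)) (n₀ + n₁) * typeFactor Φ a t))

section Mot

variable {M : Type} [CommRing M]

/-- The local factors: `(L - 1) L⁻ⁿ Tᵃ / (1 - L⁻ⁿ Tᵃ)` (and `1` for `a = 0`), if `a` is even, and `0` if
`a` is odd. -/
noncomputable def mf2 (L : Mˣ) (a n : ℕ) : PowerSeries M := if Even a then mf L a n else 0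

/-- The number `[C_B] - 2 (L + 1) + |B|`, where `C_B` is the smooth projective curve which is the double
cover of the projective line with the set `B` of branch points (two projective lines, if
`B = ∅`), and `cl B = [C_B]`. If the points of odd multiplicity on the exceptional curve `E` are those
of `B`, then `[Ẽ°] - [E°] = [C_B] - |B| - 2 (|S| + 1 - |B|) - (L - |S|) = L - |S| + bq L cl B`, where
`E° = E ∖ (S ∪ {∞})` and `S ∪ {∞}` contains `B`. -/
noncomputable def bq (L : Mˣ) (cl : Finset (Option ℂ) → M) (B : Finset (Option ℂ)) :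
    PowerSeries M :=
  PowerSeries.C (cl B - 2 * ((L : M) + 1) + (B.card : M))

/-- `Y` is the contribution of the point `(P, c)` to the motivic zeta function of
`F = h(x) (f₀(x) + ∑ y_j f_j(x)) ^ a` which is twisted by the quadratic character, with the classes
`cl B` of the double covers of the projective line. -/
def PointQ {κ : Type} [Fintype κ] (L : Mˣ) (cl : Finset (Option ℂ) → M)
    (h : MvPolynomial (Fin 2) ℂ) (f : Option κ → MvPolynomial (Fin 2) ℂ) (a : ℕ)
    (P : Fin 2 → ℂ) (c : κ → ℂ) (Y : PowerSeries M) : Prop :=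
  GermX (mf2 L) (PowerSeries.C (L : M)) (bq L cl) a (translate P h)
    (fun j => translate P (fc c f j)) 0 1 0 1 Y

end Mot

end Pool.Agent.J4H46.MQ
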