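import Pool.Agent.N103.V.NodeB
import Pool.Agent.J4H46.MQ.QDefs

set_option autoImplicit false
set_option linter.unusedSectionVars false
set_option linter.unusedVariables false
set_option linter.unusedSimpArgs false

/-! # The number of the branch points -/

namespace Pool.Agent.J4H46.MQ

open Pool.Agent.W574.SM Pool.Agent.N103 Pool.Agent.N103.V

open Polynomial

theorem branch_card {P : ℂ[X]} (hP : P ≠ 0) (S : Finset ℂ) (hS : ∀ z ∉ S, P.eval z ≠ 0) :
    ((branch P).card : ℤ) = (∑ z ∈ S, if Even (P.rootMultiplicity z) then (0 : ℤ) else 1)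
      + (if Even P.natDegree then 0 else 1) := by
  classical
  have h1 : (P.roots.toFinset.filter fun z => Odd (P.rootMultiplicity z))
      = S.filter fun z => ¬ Even (P.rootMultiplicity z) := by
    ext z
    rw [Finset.mem_filter, Finset.mem_filter, Multiset.mem_toFinset, mem_roots hP,
      Nat.not_even_iff_odd]
    constructor
    · rintro ⟨h, h2⟩
      refine ⟨?_, h2⟩
      by_contra h3
      exact hS z h3 h
    · rintro ⟨h, h2⟩
      refine ⟨?_, h2⟩
      rw [← rootMultiplicity_pos hP]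
      exact h2.pos
  have h2 : ((S.filter fun z => ¬ Even (P.rootMultiplicity z)).card : ℤ)
      = ∑ z ∈ S, if Even (P.rootMultiplicity z) then (0 : ℤ) else 1 := by
    rw [Finset.card_filter]
    push_cast
    refine Finset.sum_congr rfl fun z _ => ?_
    by_cases h : Even (P.rootMultiplicity z)
    · rw [if_neg (not_not.2 h), if_pos h]
    · rw [if_pos h, if_neg h]
  rw [← h2, ← h1, branch, Finset.card_union_of_disjoint, Finset.card_map]
  · push_cast
    congr 1
    by_cases h : Even P.natDegree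
    · rw [if_neg (by rwa [Nat.not_odd_iff_even]), if_pos h]
      rfl
    · rw [if_pos (by rwa [← Nat.not_even_iff_odd]), if_neg h]
      rfl
  · rw [Finset.disjoint_left]
    intro x hx hx2
    rw [Finset.mem_map] at hx
    obtain ⟨z, _, rfl⟩ := hx
    split_ifs at hx2 with h
    · rw [Finset.mem_singleton] at hx2
      exact Option.some_ne_none z hx2
    · exact absurd hx2 (Finset.notMem_empty _)

section Count

variable {κ : Type} [Fintype κ] [DecidableEq κ] {h' : MP} {g : Option κ → MP} {a mh mg a0 a1 : ℕ} {hc : ℂ → MP}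
  {gc : ℂ → Option κ → MP} {hI : MP} {gI : Option κ → MP}

theorem ord_eq {P : ℂ[X]} {z : ℂ} {μ : ℕ} (h1 : ∀ k < μ, (P.comp (X + C z)).coeff k = 0)
    (h2 : (P.comp (X + C z)).coeff μ ≠ 0) : P ≠ 0 ∧ μ = P.rootMultiplicity z := by
  have hP : P ≠ 0 := by
    rintro rfl
    rw [zero_comp, coeff_zero] at h2
    exact h2 rfl
  refine ⟨hP, ?_⟩
  have h3 := ord_comp P hP z
  rcases Nat.lt_trichotomy μ (P.rootMultiplicity z) with h | h | h
  · exact absurd (h3.1 _ h) h2
  · exact h
  · exact absurd (h1 _ h) h3.2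

theorem rm_Xpow (k : ℕ) (z : ℂ) :
    (X ^ k : ℂ[X]).rootMultiplicity z = if z = 0 then k else 0 := by
  split_ifs with h
  · subst h
    have := rootMultiplicity_X_sub_C_pow (0 : ℂ) k
    rwa [map_zero, sub_zero] at this
  · apply rootMultiplicity_eq_zero
    rw [IsRoot, eval_pow, eval_X]
    exact pow_ne_zero _ h

theorem branch_count
    (hhc : ∀ z, MvPolynomial.aeval (chart z) h' = MvPolynomial.X 0 ^ mh * hc z)
    (hgc : ∀ z j, MvPolynomial.aeval (chart z) (g j) = MvPolynomial.X 0 ^ mg * gc z j)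
    (hhI : MvPolynomial.aeval chartI h' = MvPolynomial.X 1 ^ mh * hI)
    (hgI : ∀ j, MvPolynomial.aeval chartI (g j) = MvPolynomial.X 1 ^ mg * gI j)
    (S : Finset ℂ) (h0S : 0 ∈ S) (t : Bool)
    (hS : ∀ z ∉ S, MvPolynomial.constantCoeff (hc z) ≠ 0 ∧ HasType (gc z) t)
    (hta : t = true → Even a) (μ : ℂ → ℕ) (μI : ℕ)
    (hμ : ∀ z, Ord0 (fam t a (hc z) (gc z)) (μ z)) (hμI : Ord1 (fam t a hI gI) μI)
    (hev : Even (a0 + a1 + (mh + a * mg))) (u1 u2 : ℕ)
    (hsum : ∀ Φ : ℕ → ℤ, Φ 0 = 1 → Φ (a0 + μI) + Φ (a1 + μ 0) + ∑ z ∈ S.erase 0, Φ (μ z)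
      - (S.card : ℤ) = Φ u1 + Φ u2 - 1) :
    (branch (edge a a1 t (hc 0) (gc 0))).card
      = (if Even u1 then 0 else 1) + (if Even u2 then 0 else 1) := by
  classical
  set m := mh + a * mg with hmd
  have hhz : ∀ z, res0 (hc z) = (res0 (hc 0)).comp (X + C z) := fun z =>
    res0_chart h' (hc 0) (hc z) mh z (hhc 0) (hhc z)
  have hgz : ∀ z j, res0 (gc z j) = (res0 (gc 0 j)).comp (X + C z) := fun z j =>
    res0_chart (g j) (gc 0 j) (gc z j) mg z (hgc 0 j) (hgc z j)
  have hcc : ∀ (z : ℂ) (x y : MP), res0 x = (res0 y).comp (X + C z) →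
      (res0 y).eval z = MvPolynomial.constantCoeff x := by
    intro z x y hxy
    rw [← coeff_res0, hxy, coeff_zero_eq_eval_zero, eval_comp]
    simp
  have hPhS : ∀ z ∉ S, (res0 (hc 0)).eval z ≠ 0 := by
    intro z hz
    rw [hcc z (hc z) (hc 0) (hhz z)]
    exact (hS z hz).1
  obtain ⟨z1, hz1S⟩ := Infinite.exists_notMem_finset S
  have hPh : res0 (hc 0) ≠ 0 := by
    intro h0
    apply hPhS z1 hz1S
    rw [h0, eval_zero]
  set R : ℂ[X] := if t then 1 else res0 (gc 0 none) ^ a with hR
  have hRS : ∀ z ∉ S, R.eval z ≠ 0 := by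
    intro z hz
    rw [hR]
    rcases t with _ | _
    · simp only [Bool.false_eq_true, if_false]
      rw [eval_pow]
      apply pow_ne_zero
      rw [hcc z _ _ (hgz z none)]
      exact (hS z hz).2
    · simp only [if_true]
      rw [eval_one]
      exact one_ne_zero
  have hRne : R ≠ 0 := by
    intro h0
    apply hRS z1 hz1S
    rw [h0, eval_zero]
  set Q : Option κ → ℂ[X] := fun j => res0 (hc 0) * res0 (if t then gc 0 j else gc 0 none) ^ a
    with hQ
  have hsel : ∀ z j, res0 (fam t a (hc z) (gc z) j) = (Q j).comp (X + C z) := by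
    intro z j
    rw [fam, map_mul, map_pow, hQ, mul_comp, pow_comp, hhz]
    congr 2
    rcases t with _ | _
    · simp only [Bool.false_eq_true, if_false]; exact hgz z none
    · simp only [if_true]; exact hgz z j
  have hQ0 : ∀ j, res0 (fam t a (hc 0) (gc 0) j) = Q j := by
    intro j
    rw [hsel, map_zero, add_zero, comp_X]
  -- the parity of the multiplicities of `Q j`
  have hpar : ∀ (j : Option κ) (z : ℂ), Q j ≠ 0 →
      (Even ((Q j).rootMultiplicity z) ↔ Even ((res0 (hc 0) * R).rootMultiplicity z)) ∧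
      (Even (Q j).natDegree ↔ Even (res0 (hc 0) * R).natDegree) := by
    intro j z hQj
    rcases t with _ | _
    · have : Q j = res0 (hc 0) * R := by
        rw [hQ, hR]
        simp only [Bool.false_eq_true, if_false]
      rw [this]
      exact ⟨Iff.rfl, Iff.rfl⟩
    · have he := hta rfl
      have hR1 : R = 1 := by
        rw [hR]
        simp only [if_true]
      have hQj' : Q j = res0 (hc 0) * res0 (gc 0 j) ^ a := by
        rw [hQ]
        simp only [if_true]
      have hne : res0 (gc 0 j) ^ a ≠ 0 := by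
        intro h0
        apply hQj
        rw [hQj', h0, mul_zero]
      have hev2 : ∀ x : ℕ, Even (a * x) := fun x => he.mul_right x
      rw [hR1, mul_one, hQj', rootMultiplicity_mul (mul_ne_zero hPh hne),
        natDegree_mul hPh hne, natDegree_pow]
      constructor
      · rw [← count_roots (p := res0 (gc 0 j) ^ a), roots_pow, Multiset.count_nsmul, Nat.even_add]
        exact ⟨fun h => h.2 (hev2 _), fun h => ⟨fun _ => hev2 _, fun _ => h⟩⟩
      · rw [Nat.even_add]
        exact ⟨fun h => h.2 (hev2 _), fun h => ⟨fun _ => hev2 _, fun _ => h⟩⟩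
  have hμpar : ∀ z, (Even (μ z) ↔ Even ((res0 (hc 0) * R).rootMultiplicity z)) := by
    intro z
    obtain ⟨j, hj⟩ := (hμ z).2
    have h1 := (hμ z).1 j
    rw [hsel] at hj h1
    obtain ⟨h2, h3⟩ := ord_eq h1 hj
    rw [h3]
    exact (hpar j z h2).1
  have hHR : res0 (hc 0) * R ≠ 0 := mul_ne_zero hPh hRne
  have hE : edge a a1 t (hc 0) (gc 0) = X ^ a1 * (res0 (hc 0) * R) := rfl
  have hEne : edge a a1 t (hc 0) (gc 0) ≠ 0 := by
    rw [hE]
    exact mul_ne_zero (pow_ne_zero _ X_ne_zero) hHR
  have hES : ∀ z ∉ S, (edge a a1 t (hc 0) (gc 0)).eval z ≠ 0 := by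
    intro z hz
    rw [hE, eval_mul, eval_mul, eval_pow, eval_X]
    refine mul_ne_zero (pow_ne_zero _ ?_) (mul_ne_zero (hPhS z hz) (hRS z hz))
    rintro rfl
    exact hz h0S
  have hErm : ∀ z, (Even ((edge a a1 t (hc 0) (gc 0)).rootMultiplicity z)
      ↔ Even ((if z = 0 then a1 else 0) + μ z)) := by
    intro z
    rw [hE, rootMultiplicity_mul (by rw [← hE]; exact hEne), rm_Xpow, Nat.even_add, Nat.even_add,
      hμpar]
  have hdeg : (Even (edge a a1 t (hc 0) (gc 0)).natDegree ↔ Even (a0 + μI)) := by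
    obtain ⟨j, hj⟩ := hμI.2
    have h1 := hμI.1 j
    obtain ⟨d1, d2, d3⟩ := coeff_resI (fam t a h' g j) (fam t a (hc 0) (gc 0) j) (fam t a hI gI j) m
      (fam_chart t a mh mg (MvPolynomial.aeval (chart 0)) (MvPolynomial.X 0) h' (hc 0) g (gc 0)
        (hhc 0) (hgc 0) j)
      (fam_chart t a mh mg (MvPolynomial.aeval chartI) (MvPolynomial.X 1) h' hI g gI hhI hgI j)
    rw [hQ0] at d1 d3
    have hle : μI ≤ m := (le_natDegree_of_ne_zero hj).trans d2
    rw [d3 μI hle] at hj
    have hQj : Q j ≠ 0 := by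
      intro h0
      rw [h0, coeff_zero] at hj
      exact hj rfl
    have hnd : (Q j).natDegree = m - μI := by
      refine le_antisymm ?_ (le_natDegree_of_ne_zero hj)
      by_contra h2
      push Not at h2
      have h3 := h1 (m - (Q j).natDegree) (by omega)
      rw [d3 _ (by omega)] at h3
      have h4 : m - (m - (Q j).natDegree) = (Q j).natDegree := by omega
      rw [h4] at h3
      exact hQj (leadingCoeff_eq_zero.1 h3)
    rw [hE, natDegree_mul (pow_ne_zero _ X_ne_zero) hHR, natDegree_X_pow, Nat.even_add,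
      ← (hpar j 0 hQj).2, hnd]
    have h5 : (a1 + (m - μI)) + (a0 + μI) = a0 + a1 + m := by omega
    have h6 : Even ((a1 + (m - μI)) + (a0 + μI)) := by rw [h5]; exact hev
    rw [Nat.even_add, Nat.even_add (m := a1)] at h6
    exact h6
  set e : ℕ → ℤ := fun n => if Even n then 1 else 0 with he
  have hsum' := hsum e (by rw [he]; simp)
  have h7 := branch_card hEne S hES
  have h8 : ∀ n : ℕ, (if Even n then (0 : ℤ) else 1) = 1 - e n := by
    intro n
    rw [he]
    by_cases h : Even n
    · simp [h]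
    · simp [h]
  have h9 : ∀ z ∈ S.erase 0, (if Even ((edge a a1 t (hc 0) (gc 0)).rootMultiplicity z) then (0 : ℤ)
      else 1) = 1 - e (μ z) := by
    intro z hz
    rw [Finset.mem_erase] at hz
    rw [if_congr (hErm z) rfl rfl, if_neg hz.1, zero_add, h8]
  have h10 : (if Even ((edge a a1 t (hc 0) (gc 0)).rootMultiplicity 0) then (0 : ℤ)
      else 1) = 1 - e (a1 + μ 0) := by
    rw [if_congr (hErm 0) rfl rfl, if_pos rfl, h8]
  rw [← Finset.add_sum_erase S _ h0S, h10, Finset.sum_congr rfl h9, Finset.sum_sub_distrib,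
    if_congr hdeg rfl rfl, h8, Finset.sum_const, Finset.card_erase_of_mem h0S, nsmul_eq_mul,
    mul_one, Nat.cast_sub (Finset.card_pos.2 ⟨0, h0S⟩)] at h7
  have h11 : ((branch (edge a a1 t (hc 0) (gc 0))).card : ℤ)
      = (if Even u1 then 0 else 1) + (if Even u2 then 0 else 1) := by
    rw [h8, h8, h7]
    push_cast
    linear_combination -hsum'
  exact_mod_cast h11

end Count

end Pool.Agent.J4H46.MQ
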