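import Pool.Agent.J4H46.MQ.Ops
import Pool.Agent.J4H46.MQ.QDefs
import Pool.Agent.N103.V.Susp
import Mathlib.RingTheory.PowerSeries.Expand

set_option autoImplicit false

/-! # The motivic zeta functions of suspensions by squares

For a polynomial `G` in `d` variables with `G(p) = 0`, let `X_l` be the space of the arcs `φ` at `p`,
modulo `t^(l+1)`, with `G(φ) = c tˡ + ⋯`, `c ≠ 0`, and `X̃_l = {(φ, y) | y² = c}`. The local motivic zeta
function, normalized such that all the arcs at `p` have the volume `1`, is `Z = ∑ a_l Tˡ` with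
`a_l = [X_l] L^(- l d)`, and the one which is twisted by the quadratic character is `Y = ∑ y_l Tˡ`
with `y_l = ([X̃_l] - [X_l]) L^(- l d)` (`y_l = 0` if `l` is odd). -/

namespace Pool.Agent.J4H46.MQ

open PowerSeries Pool.Agent.W574.MO Pool.Agent.W574.SM Pool.Agent.N103 Pool.Agent.N103.V

variable {M : Type} [CommRing M]

/-- `∑_m (1 - ∑_{l ≤ m} a_l) Tᵐ` for `Z = ∑ a_l Tˡ`: the series of the volumes of the sets `ord > m`. -/
noncomputable def gtr (Z : M⟦X⟧) : M⟦X⟧ :=
  PowerSeries.mk fun m => 1 - ∑ l ∈ Finset.range (m + 1), coeff l Z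

/-- **The motivic zeta function of `z² + G`** from the two zeta functions `Z = ∑ a_l Tˡ` and `Y = ∑ y_l Tˡ`
of `G`. Here `evn L f = ∑_k f_{2k} L⁻ᵏ T²ᵏ` and `odd L f = ∑_k f_{2k+1} L⁻ᵏ T²ᵏ⁺¹`. The parts come from
the following arcs `(z, φ)`.

* `(L - 1) ∑_{k ≥ 1} L⁻ᵏ (1 - ∑_{l ≤ 2k} a_l) T²ᵏ`: `2 ord z = 2 k < ord G(φ)`; then `z² + G` has the
  order `2 k`, and the volume of `ord z = k` is `(L - 1) L⁻ᵏ`;
* `evn L Z + odd L Z = ∑_m L^(-⌊m/2⌋) a_m Tᵐ`: `2 ord z > ord G(φ) = m`;
* `(L - 2) evn L Z - evn L Y`: `2 ord z = ord G(φ) = 2 k`, and `z₀² + c ≠ 0` for the leading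
  coefficients `z₀`, `c` of `z` and `G(φ)`; the class of the space of these `(z₀, φ)` is
  `(L - 1) [X_{2k}] - [X̃_{2k}]`, and the other coefficients of `z` give the volume `L⁻ᵏ`;
* `(evn L Z + evn L Y) (L - 1) L⁻¹ T / (1 - L⁻¹ T)`: `2 ord z = ord G(φ) = 2 k` and `z₀² + c = 0`; the
  class of the space of these `(z₀, φ)` is `[X̃_{2k}]`, and
  `(z² + G(φ)) / t²ᵏ` is uniformly distributed among the power series in `t` without constant
  term. -/
noncomputable def sqZ (L : Mˣ) (Z Y : M⟦X⟧) : M⟦X⟧ :=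
  C ((L : M) - 1) * (evn L (gtr Z) - 1) + (evn L Z + odd L Z)
    + (C ((L : M) - 2) * evn L Z - evn L Y) + (evn L Z + evn L Y) * mf L 1 1

/-- **The motivic zeta function of `z² + G` twisted by the quadratic character**. The parts come from
the following arcs `(z, φ)`.

* `(L - 1) ∑_{k ≥ 1} L⁻ᵏ (1 - ∑_{l ≤ 2k} a_l) T²ᵏ`: `2 ord z < ord G(φ)`; the leading coefficient of
  `z² + G` is a square, and the double cover is trivial;
* `evn L Y`: `2 ord z > ord G(φ)`; the leading coefficient is the one of `G(φ)`;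
* `- (evn L Z + evn L Y)`: `2 ord z = ord G(φ) = 2 k`, and `z₀² + c ≠ 0`; the class of the space of the
  `(z₀, y, φ)` with `y² = z₀² + c`, `y z₀ ≠ 0` is `(L - 1) [X_{2k}] - 2 [X̃_{2k}]`, and so the difference
  of the classes is `- [X̃_{2k}]`;
* if `z₀² + c = 0`, the leading coefficient is uniformly distributed, and the difference of the classes
  is `0`.

The sum of the second and the third part is `- evn L Z`. -/
noncomputable def sqY (L : Mˣ) (Z : M⟦X⟧) : M⟦X⟧ :=
  C ((L : M) - 1) * (evn L (gtr Z) - 1) - evn L Z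

/-- `QZ L cl σ F p Z Y`: the polynomial `F` in the variables `σ` is in the least class of polynomials
with a point which is closed under the following rules, and `Z` and `Y` are its local motivic zeta
function at `p`, and the one twisted by the quadratic character, normalized such that all the
arcs at `p` have the volume `1`. Here `L` is the class of the affine line, and `cl B`, for a finite
set `B` of an even number of points of the projective line `ℂ ∪ {∞}`, is the class of the double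
cover of the projective line with the set `B` of branch points.

* `smooth`: `F = 0` is smooth at `p`: `Z = (L - 1) L⁻¹ T / (1 - L⁻¹ T)` and `Y = 0`;
* `lin`: `F = h(x) (f₀(x) + ∑ y_j f_j(x)) ^ a`, `x = (x₁, x₂)`, and the zeta functions are computed by
  blowing up points of the plane (`PointZeta` and `PointQ`); in particular, `F` may be any polynomial
  in two variables;
* `square`: `F = z² + G`, and `z = 0` at the point (`Fd 2 G = X none ^ 2 + rename some G`);
* `pow`: `F = G ^ k`, `k ≥ 2`: the order is multiplied by `k`, and the leading coefficient is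
  the `k`-th power. -/
inductive QZ (L : Mˣ) (cl : Finset (Option ℂ) → M) :
    (σ : Type) → MvPolynomial σ ℂ → (σ → ℂ) → M⟦X⟧ → M⟦X⟧ → Prop
  | smooth {σ : Type} (F : MvPolynomial σ ℂ) (p : σ → ℂ) (h0 : MvPolynomial.eval p F = 0) (i : σ)
      (h1 : MvPolynomial.eval p (MvPolynomial.pderiv i F) ≠ 0) :
      QZ L cl σ F p (mf L 1 1) 0
  | lin {κ : Type} [Fintype κ] [DecidableEq κ] (h : MvPolynomial (Fin 2) ℂ)
      (f : Option κ → MvPolynomial (Fin 2) ℂ) (a : ℕ) (ha : 1 ≤ a) (hF : FF h f a ≠ 0)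
      (P : Fin 2 → ℂ) (c : κ → ℂ) (h0 : MvPolynomial.eval (Sum.elim P c) (FF h f a) = 0)
      (Z Y : M⟦X⟧) (hZ : PointZeta (mf L) (C (L : M)) h f a P c Z)
      (hY : PointQ L cl h f a P c Y) :
      QZ L cl (Fin 2 ⊕ κ) (FF h f a) (Sum.elim P c) Z Y
  | square {σ : Type} (G : MvPolynomial σ ℂ) (p : σ → ℂ) (Z Y : M⟦X⟧) (hG : QZ L cl σ G p Z Y) :
      QZ L cl (Option σ) (Fd 2 G) (fun i => i.elim 0 p) (sqZ L Z Y) (sqY L Z)
  | pow {σ : Type} (k : ℕ) (hk : 2 ≤ k) (hk0 : k ≠ 0) (G : MvPolynomial σ ℂ) (p : σ → ℂ)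
      (Z Y : M⟦X⟧) (hG : QZ L cl σ G p Z Y) :
      QZ L cl σ (G ^ k) p (expand k hk0 Z) (if Even k then expand k hk0 Z else expand k hk0 Y)

end Pool.Agent.J4H46.MQ
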