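import Pool.Agent.J4H46.MQ.CDefs
import Pool.Agent.R852.MC.Expand

set_option autoImplicit false
set_option linter.unusedSectionVars false
set_option linter.unusedVariables false

/-! # The reduced zeta functions -/

namespace Pool.Agent.J4H46.MQ

open PowerSeries Pool.Agent.W574.MO Pool.Agent.W574.RO Pool.Agent.R852.MC

variable {M : Type} [CommRing M] (L : Mˣ)

/-- `((1 - L⁻¹ T) Z - (1 - L⁻¹) T) / (1 - T)` -/
noncomputable def red (Z : M⟦X⟧) : M⟦X⟧ :=
  ((1 - qq L 1 1) * Z - C (1 - ((L⁻¹ : Mˣ) : M)) * X) * geo L 1 0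

theorem qq11 : (qq L 1 1 : M⟦X⟧) = C ((L⁻¹ : Mˣ) : M) * X := by
  rw [qq, pow_one, pow_one]

theorem qq10 : (qq L 1 0 : M⟦X⟧) = X := by
  rw [qq, pow_zero, pow_one, Units.val_one, map_one, one_mul]

theorem geo10 : (1 - X : M⟦X⟧) * geo L 1 0 = 1 := by
  have := geo_mul L (le_refl 1) 0
  rwa [qq10] at this

theorem Xcancel {A B : M⟦X⟧} (h : (1 - X) * A = (1 - X) * B) : A = B := one_sub_X_cancel h

theorem red_eq (Z : M⟦X⟧) : (1 - X) * red L Z
    = (1 - qq L 1 1) * Z - C (1 - ((L⁻¹ : Mˣ) : M)) * X := by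
  rw [red]
  linear_combination ((1 - qq L 1 1) * Z - C (1 - ((L⁻¹ : Mˣ) : M)) * X) * geo10 L

theorem gtr_eq (Z : M⟦X⟧) : (1 - X) * gtr Z = 1 - Z := by
  ext e
  rw [sub_mul, one_mul, map_sub, map_sub, gtr, coeff_mk]
  rcases e with _ | e
  · rw [coeff_zero_X_mul, Finset.sum_range_one, sub_zero, coeff_one, if_pos rfl]
  · rw [coeff_succ_X_mul, coeff_mk, Finset.sum_range_succ, coeff_one,
      if_neg (Nat.succ_ne_zero e)]
    ring

theorem ll : (C (L : M) : M⟦X⟧) * C ((L⁻¹ : Mˣ) : M) = 1 := by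
  rw [← map_mul, Units.mul_inv, map_one]

/-- the relation between the tails and the reduced zeta function -/
theorem gtr_red (Z : M⟦X⟧) : gtr Z - C ((L⁻¹ : Mˣ) : M) * (X * gtr Z) = 1 - red L Z := by
  apply Xcancel
  have h1 := gtr_eq Z
  have h2 := red_eq L Z
  rw [map_sub, map_one] at h2
  rw [qq11] at h2
  linear_combination (1 - C ((L⁻¹ : Mˣ) : M) * X) * h1 + h2

theorem r1 (Z : M⟦X⟧) : evn L (gtr Z) - C ((L⁻¹ : Mˣ) : M) * (C ((L⁻¹ : Mˣ) : M) *
    (X * odd L (gtr Z))) = 1 - evn L (red L Z) := by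
  have h := congrArg (evn L) (gtr_red L Z)
  rwa [evn_sub, evn_sub, evn_one, evn_Cm, evn_Xm] at h

theorem r2 (Z : M⟦X⟧) : odd L (gtr Z) - C ((L⁻¹ : Mˣ) : M) * (X * evn L (gtr Z))
    = - odd L (red L Z) := by
  have h := congrArg (odd L) (gtr_red L Z)
  rwa [odd_sub, odd_sub, odd_one, odd_Cm, odd_Xm, zero_sub] at h

theorem r3 (Z : M⟦X⟧) : evn L Z = 1 - evn L (gtr Z) + C ((L⁻¹ : Mˣ) : M) * (X * odd L (gtr Z)) := by
  have h0 : Z = 1 - gtr Z + X * gtr Z := by linear_combination gtr_eq Z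
  conv_lhs => rw [h0]
  rw [evn_add, evn_sub, evn_one, evn_Xm]

theorem r4 (Z : M⟦X⟧) : odd L Z = - odd L (gtr Z) + X * evn L (gtr Z) := by
  have h0 : Z = 1 - gtr Z + X * gtr Z := by linear_combination gtr_eq Z
  conv_lhs => rw [h0]
  rw [odd_add, odd_sub, odd_one, odd_Xm, zero_sub]

/-- **The suspension formula for the reduced zeta function.** -/
theorem red_sqZ (Z Y : M⟦X⟧) : red L (sqZ L Z Y) = odd L (red L Z) - evn L Y := by
  apply Xcancel
  rw [red_eq]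
  have h1 := r1 L Z
  have h2 := r2 L Z
  have h3 := r3 L Z
  have h4 := r4 L Z
  have h5 := ll L
  have hm : (1 - C ((L⁻¹ : Mˣ) : M) * X) * mf L 1 1
      = (C (L : M) - 1) * (C ((L⁻¹ : Mˣ) : M) * X) := by
    rw [mf_pos L le_rfl, ← qq11, map_sub, map_one]
    linear_combination ((C (L : M) - 1) * qq L 1 1) * geo_mul L (le_refl 1) 1
  have h6 : (C (2 : M) : M⟦X⟧) = 2 := by
    rw [show (2 : M) = 1 + 1 by norm_num, map_add, map_one]
    norm_num
  rw [sqZ, qq11, map_sub, map_sub, map_sub, map_one, h6]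
  set li := (C ((L⁻¹ : Mˣ) : M) : M⟦X⟧)
  set l := (C (L : M) : M⟦X⟧)
  set te := evn L (gtr Z)
  set tt := odd L (gtr Z)
  set ze := evn L Z
  set zo := odd L Z
  set we := evn L (red L Z)
  set wo := odd L (red L Z)
  set y := evn L Y
  set m := (mf L 1 1 : M⟦X⟧)
  linear_combination (ze + y) * hm + (l - 1) * h3 + (1 - li * X) * h4 - (1 - X) * h2
    + (X * (y - (te - 1) + tt)) * h5

/-- **The suspension formula for the twisted zeta function.** -/
theorem sqY_eq (Z : M⟦X⟧) : sqY L Z = - (C (L : M) * evn L (red L Z)) := by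
  have h1 := r1 L Z
  have h3 := r3 L Z
  have h5 := ll L
  rw [sqY, map_sub, map_one]
  set li := (C ((L⁻¹ : Mˣ) : M) : M⟦X⟧)
  set l := (C (L : M) : M⟦X⟧)
  set te := evn L (gtr Z)
  set tt := odd L (gtr Z)
  set ze := evn L Z
  set we := evn L (red L Z)
  linear_combination (l) * h1 - h3 + (li * X * tt) * h5

theorem geo_uniq' {a n : ℕ} (ha : 1 ≤ a) {u v : M⟦X⟧} (h : (1 - qq L a n) * u = v) :
    u = geo L a n * v := by
  rw [← h]
  linear_combination (-u) * geo_mul L ha n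

theorem of_red (Z : M⟦X⟧) : Z = geo L 1 1 * ((1 - X) * red L Z + C (1 - ((L⁻¹ : Mˣ) : M)) * X) := by
  apply geo_uniq' L le_rfl
  rw [red_eq]
  ring

/-- powers -/
theorem expand_red (k : ℕ) (hk : k ≠ 0) (Z : M⟦X⟧) : expand k hk Z
    = geo L k 1 * ((1 - X ^ k) * expand k hk (red L Z) + C (1 - ((L⁻¹ : Mˣ) : M)) * X ^ k) := by
  apply geo_uniq' L (Nat.one_le_iff_ne_zero.2 hk)
  have h1 := congrArg (expand k hk) (red_eq L Z)
  rw [map_mul, map_sub, map_sub, map_mul, map_mul, map_sub, map_one, qq11, map_mul, expand_X,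
    expand_C, expand_C] at h1
  rw [qq, pow_one]
  linear_combination -h1

theorem red_expand (k : ℕ) (hk : k ≠ 0) (Z : M⟦X⟧) : red L (expand k hk Z)
    = geo L k 1 * ((1 - qq L 1 1) * (∑ i ∈ Finset.range k, X ^ i) * expand k hk (red L Z)
      - C (1 - ((L⁻¹ : Mˣ) : M)) * X * ∑ i ∈ Finset.range (k - 1), X ^ i) := by
  obtain ⟨m, rfl⟩ : ∃ m, k = m + 1 := ⟨k - 1, by omega⟩
  rw [Nat.add_sub_cancel]
  apply Xcancel
  rw [red_eq, expand_red L (m + 1) hk Z]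
  have h4 := mul_neg_geom_sum (X : M⟦X⟧) (m + 1)
  have h5 := mul_neg_geom_sum (X : M⟦X⟧) m
  have h6 := geo_mul L (show 1 ≤ m + 1 by omega) 1
  have h7 : (qq L (m + 1) 1 : M⟦X⟧) = C ((L⁻¹ : Mˣ) : M) * X ^ (m + 1) := by rw [qq, pow_one]
  rw [h7] at h6
  rw [qq11]
  set W := expand (m + 1) hk (red L Z)
  set g := (geo L (m + 1) 1 : M⟦X⟧)
  set c := (C (1 - ((L⁻¹ : Mˣ) : M)) : M⟦X⟧)
  set li := (C ((L⁻¹ : Mˣ) : M) : M⟦X⟧)
  linear_combination (-(g * (1 - li * X) * W)) * h4 + (g * c * X) * h5 + (c * X) * h6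

theorem red_mf : red L (mf L 1 1) = 0 := by
  apply Xcancel
  rw [red_eq, mf_pos L le_rfl, mul_zero]
  have h1 := geo_mul L (le_refl 1) 1
  rw [qq11] at h1 ⊢
  rw [map_sub, map_sub, map_one]
  have h5 := ll L
  linear_combination ((C (L : M) - 1) * (C ((L⁻¹ : Mˣ) : M) * X)) * h1 + X * h5

end Pool.Agent.J4H46.MQ
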