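import Pool.Agent.J4H46.MQ.Lift
import Pool.Agent.N103.V.Final

set_option autoImplicit false
set_option linter.unusedSectionVars false
set_option linter.unusedVariables false

/-! # The motivic zeta functions of germs which are suspensions by squares -/

namespace Pool.Agent.J4H46.MQ

open Pool.Agent.W574.SM Pool.Agent.N103 Pool.Agent.N103.V Pool.Agent.H628R4.TP Pool.Agent.W574.MO
open Pool.Agent.Y229.PS (IsFormalBFunction coordB formal_of_unit local_of_formal formal_of_local)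

variable {M : Type} [CommRing M] {L : Mˣ} {cl : Finset (Option ℂ) → M}

/-- all the roots at the same time -/
theorem qz_mem (hc0 : ∀ B, B.card = 0 → cl B = 2 * ((L : M) + 1))
    (hc2 : ∀ B, B.card = 2 → cl B = (L : M) + 1) {σ : Type} {F : MvPolynomial σ ℂ} {p : σ → ℂ}
    {Z Y : PowerSeries M} (hZ : QZ L cl σ F p Z Y) {b : Polynomial ℂ}
    (hb1 : b.eval (-1) = 0)
    (hb : ∀ s : ℂ, b.eval s ≠ 0 → ∃ H : MvPolynomial σ ℂ, MvPolynomial.eval p H ≠ 0 ∧ Ev H F s) :
    Z ∈ DenRing L (Kb b) ∧ Y ∈ DenRing L (Kb b) := by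
  obtain ⟨Z0, Y0, h1, rfl, rfl⟩ := qz_lift hc0 hc2 hZ
  have hL := psi_UL L cl
  have hG := qz_good ucl0 ucl2 h1
  have hW : red UL Z0 ∈ DenRing UL (Kb b) := kb_mem hG.all.1 fun s hs => by
    obtain ⟨H, hH, hE⟩ := hb s hs
    exact (hG.reg H s hH hE).1
  have hY : Y0 ∈ DenRing UL (Kb b) := kb_mem hG.all.2 fun s hs => by
    obtain ⟨H, hH, hE⟩ := hb s hs
    exact (hG.reg H s hH hE).2
  have hZ0 : Z0 ∈ DenRing UL (Kb b) := by
    rw [of_red UL Z0]
    refine Subring.mul_mem _ (geo_mem le_rfl le_rfl ?_) (Subring.add_mem _ (Subring.mul_mem _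
      (Subring.sub_mem _ (Subring.one_mem _) X_mem) hW) (Subring.mul_mem _ (C_mem _) X_mem))
    rw [Kb]
    convert hb1 using 2
    norm_num
  exact ⟨map_den _ hL hZ0, map_den _ hL hY⟩

/-- **The local theorem.** -/
theorem sq_local (hc0 : ∀ B, B.card = 0 → cl B = 2 * ((L : M) + 1))
    (hc2 : ∀ B, B.card = 2 → cl B = (L : M) + 1) {N : ℕ} (f : MvPowerSeries (Fin N) ℂ)
    {σ : Type} (F : MvPolynomial σ ℂ) (hf : BecomesAt f F) (Z Y : PowerSeries M)
    (hZ : QZ L cl σ F 0 Z Y) (b : Polynomial ℂ) (hb : IsFormalBFunction f b) :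
    Z ∈ DenRing L (Kb b) ∧ Y ∈ DenRing L (Kb b) := by
  have hG := qz_good hc0 hc2 hZ
  obtain ⟨ε, φ, u, hφ, hφ0, hu, h3⟩ := hf
  obtain ⟨u, rfl⟩ := hu
  have h4 : IsLocalBFunction (MvPolynomial.rename ε F) b := by
    refine local_of_formal (formal_of_unit (Units.inv_mul u) ?_)
    rw [← h3]
    exact coordB hφ hφ0 hb
  have hinj := MvPolynomial.rename_injective ε ε.injective (R := ℂ)
  have hne : MvPolynomial.rename ε F ≠ 0 := by
    intro h5
    exact hG.ne (hinj (by rw [h5, map_zero]))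
  obtain ⟨H, hH, hHb⟩ := heq_of_local _ hne b h4
  have hH2 : MvPolynomial.eval (0 : σ → ℂ) (MvPolynomial.rename ε.symm H) ≠ 0 := by
    rw [MvPolynomial.eval_rename]
    have : ((0 : σ → ℂ) ∘ ε.symm) = 0 := rfl
    rw [this, MvPolynomial.eval_zero]
    exact hH
  refine qz_mem hc0 hc2 hZ ?_ fun s hs => ⟨_, hH2, ev_rename ε (Ev_of_heq hne hHb hs)⟩
  refine root_minus_one (p := 0) hne ?_ ?_ hHb
  · rw [MvPolynomial.eval_rename]
    exact hG.zero
  · rw [MvPolynomial.eval_zero]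
    exact hH

end Pool.Agent.J4H46.MQ
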