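import Pool.Agent.J4H46.MQ.NodeQA
import Pool.Agent.J4H46.MQ.Branch

set_option autoImplicit false
set_option linter.unusedSectionVars false
set_option linter.unusedVariables false
set_option linter.unusedSimpArgs false

/-! # The poles of the contribution of a point (quadratic twist): blowing up -/

namespace Pool.Agent.J4H46.MQ

open Pool.Agent.W574.SM Pool.Agent.N103 Pool.Agent.N103.V

open Polynomial

section Node

variable {κ : Type} [Fintype κ] [DecidableEq κ]

variable {h : MP} {f : Option κ → MP} {a : ℕ} {c : κ → ℂ} {Pt : Fin 2 → ℂ}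
variable {R : Type} [CommRing R]
variable {H : MvPolynomial (Fin 2 ⊕ κ) ℂ} {s0 : ℂ}
variable {D : Subring R} {Φ : ℕ → ℕ → R} {l : R} {β0 : Finset (Option ℂ) → R}

/-- **The poles of the contribution of a point.** -/
theorem good_all (hF : FF h f a ≠ 0)
    (hH : MvPolynomial.eval (Sum.elim Pt c) H ≠ 0) (ha : 1 ≤ a) (hE : Ev H (FF h f a) s0)
    (hD : ZQ D s0 Φ l β0) (hS1 : s0 ≠ -1 ∨ ∀ N : ℕ, 1 ≤ N → Φ N 1 ∈ D) {h' : MP} {g : Option κ → MP} {a0 n0 a1 n1 : ℕ} {Z : R}
    (hZ : GermX Φ l β0 a h' g a0 n0 a1 n1 Z) :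
    InvE h f a c Pt (Φ a 1 ∈ D) s0 h' g a0 n0 a1 n1 → GoodA a D s0 Φ h' g a0 n0 a1 n1 Z := by
  classical
  induction hZ with
  | unit h' g a0 n0 a1 n1 hh t ht =>
    intro inv
    exact good_unit hF hH ha hE hD hS1 inv hh t ht
  | curveV h' g a0 n0 mh mg hm q kh k hh hg h0 h1 hkh t ht =>
    intro inv
    exact good_curveV hF hH ha hE hD hS1 inv mh mg hm q kh k hh hg h0 h1 hkh t ht
  | curveU h' g a1 n1 mh mg hm q kh k hh hg h0 h1 hkh t ht =>
    intro inv
    exact good_curveU hF hH ha hE hD hS1 inv mh mg hm q kh k hh hg h0 h1 hkh t ht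
  | blowup h' g a0 n0 a1 n1 mh mg hm hc gc hI gI hhc hgc hhI hgI S h0S t hS Zc ZI hz0 hcS hZI
      ih0 ihc ihI =>
    intro inv
    obtain ⟨G⟩ := inv.geom
    have hn0 := inv.hn0
    have hn1 := inv.hn1
    have hmultH : IsMult (fun _ : Unit => h') mh := ⟨⟨fun _ => hc 0, fun _ => hhc 0⟩,
      ⟨fun _ => hI, fun _ => hhI⟩⟩
    have hmultG : IsMult g mg := ⟨⟨gc 0, hgc 0⟩, ⟨gI, hgI⟩⟩
    have hJ1 := inv.hJ1 mh mg hmultH hmultG
    obtain ⟨z1, hz1S⟩ := Infinite.exists_notMem_finset S
    have hz1ne : z1 ≠ 0 := fun h => hz1S (h ▸ h0S)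
    obtain ⟨hu1, ht1⟩ := hS z1 hz1S
    obtain ⟨j0, hj0⟩ := HasType_some ht1
    -- the restrictions to the new curve
    have hhz : ∀ z, res0 (hc z) = (res0 (hc 0)).comp (X + C z) := fun z =>
      res0_chart h' (hc 0) (hc z) mh z (hhc 0) (hhc z)
    have hgz : ∀ z j, res0 (gc z j) = (res0 (gc 0 j)).comp (X + C z) := fun z j =>
      res0_chart (g j) (gc 0 j) (gc z j) mg z (hgc 0 j) (hgc z j)
    have hcc : ∀ (z : ℂ) (x y : MP), res0 x = (res0 y).comp (X + C z) →
        (res0 y).eval z = MvPolynomial.constantCoeff x := by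
      intro z x y hxy
      rw [← coeff_res0, hxy, coeff_zero_eq_eval_zero, eval_comp]
      simp
    have hPh : res0 (hc 0) ≠ 0 := by
      intro h0
      apply hu1
      rw [← hcc z1 _ _ (hhz z1), h0, eval_zero]
    have hPg : res0 (gc 0 j0) ≠ 0 := by
      intro h0
      apply hj0
      rw [← hcc z1 _ _ (hgz z1 j0), h0, eval_zero]
    have hdegH := coeff_resI h' (hc 0) hI mh (hhc 0) hhI
    have hdegG := fun j => coeff_resI (g j) (gc 0 j) (gI j) mg (hgc 0 j) (hgI j)
    have hcomp : ∀ (x y : MP) (m : ℕ) (z : ℂ), res0 y ≠ 0 → (res0 y).natDegree ≤ m →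
        res0 x = (res0 y).comp (X + C z) → res0 x ≠ 0 ∧ (res0 x).natDegree ≤ m := by
      intro x y m z hy hd hxy
      have h1 : (X + C z : ℂ[X]).natDegree = 1 := natDegree_X_add_C z
      constructor
      · intro h
        have h2 := ord_comp (res0 y) hy z
        rw [hxy] at h
        rw [h, coeff_zero] at h2
        exact h2.2 rfl
      · rw [hxy, natDegree_comp, h1, mul_one]
        exact hd
    have hcompI : ∀ (x y : MP) (m : ℕ), res0 y ≠ 0 → (res0 y).natDegree ≤ m →
        (∀ k ≤ m, (res1 x).coeff k = (res0 y).coeff (m - k)) → res1 x ≠ 0 := by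
      intro x y m hy hd hxy h
      have h2 := hxy (m - (res0 y).natDegree) (by omega)
      rw [h, coeff_zero] at h2
      have h3 : m - (m - (res0 y).natDegree) = (res0 y).natDegree := by omega
      rw [h3] at h2
      exact hy (leadingCoeff_eq_zero.1 h2.symm)
    have hPHI : res1 hI ≠ 0 := hcompI hI (hc 0) mh hPh hdegH.1 hdegH.2.2
    have hPGI : res1 (gI j0) ≠ 0 := hcompI (gI j0) (gc 0 j0) mg hPg (hdegG j0).1 (hdegG j0).2.2
    -- the multiplicities of the transforms
    have hmc : ∀ z mh' mg', IsMult (fun _ : Unit => hc z) mh' → IsMult (gc z) mg' →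
        mh' + a * mg' ≤ mh + a * mg := by
      intro z mh' mg' hm1 hm2
      obtain ⟨g1, hg1⟩ := hm1.2
      obtain ⟨g2, hg2⟩ := hm2.2
      have e1 := hcomp (hc z) (hc 0) mh z hPh hdegH.1 (hhz z)
      have e2 := hcomp (gc z j0) (gc 0 j0) mg z hPg (hdegG j0).1 (hgz z j0)
      have l1 := le_of_dvd e1.1 e1.2 (res0_of_chartI (hg1 ()))
      have l2 := le_of_dvd e2.1 e2.2 (res0_of_chartI (hg2 j0))
      exact Nat.add_le_add l1 (Nat.mul_le_mul_left _ l2)
    have hmI : ∀ mh' mg', IsMult (fun _ : Unit => hI) mh' → IsMult gI mg' →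
        mh' + a * mg' ≤ mh + a * mg := by
      intro mh' mg' hm1 hm2
      obtain ⟨g1, hg1⟩ := hm1.1
      obtain ⟨g2, hg2⟩ := hm2.1
      have l1 := le_of_dvd hPHI hdegH.2.1 (res1_of_chart0 (hg1 ()))
      have l2 := le_of_dvd hPGI (hdegG j0).2.1 (res1_of_chart0 (hg2 j0))
      exact Nat.add_le_add l1 (Nat.mul_le_mul_left _ l2)
    have hresI : ∀ (t : Bool) (j : Option κ), res0 (fam t a h' g j)
        = X ^ (mh + a * mg) * res0 (fam t a hI gI j) := fun t j =>
      res0_of_chartI (fam_chart t a mh mg (MvPolynomial.aeval chartI) (MvPolynomial.X 1) h' hI g gI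
        hhI hgI j)
    have hres0 : ∀ (t : Bool) (j : Option κ), res1 (fam t a h' g j)
        = X ^ (mh + a * mg) * res1 (fam t a (hc 0) (gc 0) j) := fun t j =>
      res1_of_chart0 (fam_chart t a mh mg (MvPolynomial.aeval (chart 0)) (MvPolynomial.X 0) h'
        (hc 0) g (gc 0) (hhc 0) (hgc 0) j)
    -- the types
    have hXne : ∀ k : ℕ, (X : ℂ[X]) ^ k ≠ 0 := fun k => pow_ne_zero _ X_ne_zero
    have t0I : t0 gI = t0 g := by
      have e := res0_of_chartI (hgI none)
      rcases hb1 : t0 g with _ | _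
      · rw [t0_false] at hb1 ⊢
        intro h1
        rw [h1, mul_zero] at e
        exact hb1 e
      · rw [t0_true] at hb1 ⊢
        rw [hb1] at e
        exact (mul_eq_zero.1 e.symm).resolve_left (hXne _)
    have t10 : t1 (gc 0) = t1 g := by
      have e := res1_of_chart0 (hgc 0 none)
      rcases hb1 : t1 g with _ | _
      · rw [t1_false] at hb1 ⊢
        intro h1
        rw [h1, mul_zero] at e
        exact hb1 e
      · rw [t1_true] at hb1 ⊢
        rw [hb1] at e
        exact (mul_eq_zero.1 e.symm).resolve_left (hXne _)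
    have tgen : if t then res0 (gc 0 none) = 0 else res0 (gc 0 none) ≠ 0 := by
      rcases t with _ | _
      · simp only [Bool.false_eq_true, if_false]
        intro h0
        have h2 : MvPolynomial.constantCoeff (gc z1 none) ≠ 0 := ht1
        rw [← hcc z1 _ _ (hgz z1 none), h0, eval_zero] at h2
        exact h2 rfl
      · simp only [if_true]
        apply poly_zero_of_compl _ S
        intro z hz
        have h1 : MvPolynomial.constantCoeff (gc z none) = 0 ∧ ∃ j,
            MvPolynomial.constantCoeff (gc z (some j)) ≠ 0 := (hS z hz).2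
        rw [hcc z _ _ (hgz z none)]
        exact h1.1
    have t0z : ∀ z, t0 (gc z) = t := by
      intro z
      rcases t with _ | _
      · simp only [Bool.false_eq_true, if_false] at tgen
        rw [t0_false]
        exact (hcomp (gc z none) (gc 0 none) mg z tgen (hdegG none).1 (hgz z none)).1
      · simp only [if_true] at tgen
        rw [t0_true, hgz, tgen, zero_comp]
    have t1I : t1 gI = t := by
      rcases t with _ | _
      · simp only [Bool.false_eq_true, if_false] at tgen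
        rw [t1_false]
        exact hcompI (gI none) (gc 0 none) mg tgen (hdegG none).1 (hdegG none).2.2
      · simp only [if_true] at tgen
        rw [t1_true]
        ext k
        rw [coeff_zero]
        by_cases hk : k ≤ mg
        · rw [(hdegG none).2.2 k hk, tgen, coeff_zero]
        · exact coeff_eq_zero_of_natDegree_lt (by have := (hdegG none).2.1; omega)
    have htype : t = true → Φ a 1 ∈ D :=
      type_D hF hH ha hE hD hS1 (G.child hn0 hn1 mh mg z1 hz1ne (hc z1) (gc z1) (hhc z1) (hgc z1)) 1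
        one_ne_zero (fun h => hu1 (by rw [h, map_zero])) (gc z1) (fun j => (one_mul _).symm) ht1
    have htf : typeFactor Φ a t ∈ D := tfm t htype
    -- the analysis of the new exceptional curve
    have han := fun hA => blowA hF hH ha G hn0 hn1 mh mg hm hc gc hI gI hhc hgc hhI hgI S h0S t
      hS hJ1 inv.hJ2 inv.hJ2' inv.hz0 inv.hz1 s0 hE hA
    set m := mh + a * mg with hmd
    have haz : a0 + a1 + m = 0 → n0 + n1 = 1 := by omega
    -- the invariants of the children
    have inv0 : InvE h f a c Pt (Φ a 1 ∈ D) s0 (hc 0) (gc 0) (a0 + a1 + m) (n0 + n1) a1 n1 :=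
      { geom := ⟨G.child0 hn0 hn1 mh mg (hc 0) (gc 0) (hhc 0) (hgc 0)⟩
        hn0 := by omega
        hn1 := hn1
        hz0 := haz
        hz1 := inv.hz1
        hJ1 := fun mh' mg' h1 h2 => ⟨arith3 a0 n0 a1 n1 m _ hn0 hn1 (hmc 0 mh' mg' h1 h2) hJ1.1
          hJ1.2, (Nat.mul_le_mul_left _ (hmc 0 mh' mg' h1 h2)).trans hJ1.2⟩
        hJ2 := fun _ => arith1 a0 n0 a1 n1 m hn0 hn1 hm inv.hz0 inv.hJ2
        hJ2' := fun ha1 => arith2 a0 n0 a1 n1 m hn0 hn1 ha1 hJ1.2 inv.hJ2'
        hH0 := by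
          intro hA μ' hμ'
          obtain ⟨μ, μI, hμ, hμI, h2, h3, h4, h5⟩ := han hA
          rw [t0z] at hμ'
          rwa [← (hμ 0).unique hμ']
        hH1 := by
          intro hA1 μ' hμ'
          rw [t10] at hμ'
          have h2 := inv.hH1 hA1 (m + μ') (hμ'.shift (hres0 _))
          intro h3
          apply h2
          push_cast at h3 ⊢
          linear_combination h3 - hA1
        hT0 := fun _ h1 => htype (by rw [← h1, t0z])
        hT1 := fun hA1 h1 => inv.hT1 hA1 (by rw [← h1, t10]) }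
    have invc : ∀ z, z ≠ 0 → InvE h f a c Pt (Φ a 1 ∈ D) s0 (hc z) (gc z) (a0 + a1 + m) (n0 + n1) 0 1 :=
      fun z hz0 =>
      { geom := ⟨G.child hn0 hn1 mh mg z hz0 (hc z) (gc z) (hhc z) (hgc z)⟩
        hn0 := by omega
        hn1 := le_rfl
        hz0 := haz
        hz1 := fun _ => rfl
        hJ1 := fun mh' mg' h1 h2 => ⟨arith3 a0 n0 a1 n1 m _ hn0 hn1 (hmc z mh' mg' h1 h2) hJ1.1
          hJ1.2, by simp⟩
        hJ2 := fun h => by rw [mul_zero, mul_one]; exact h
        hJ2' := fun h => absurd h (lt_irrefl 0)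
        hH0 := by
          intro hA μ' hμ'
          obtain ⟨μ, μI, hμ, hμI, h2, h3, h4, h5⟩ := han hA
          have h6 := h4 z hz0
          rw [t0z] at hμ'
          rw [(hμ z).unique hμ'] at h6
          rw [zero_add]
          push_cast
          exact h6
        hH1 := by
          intro hA1
          simp at hA1
        hT0 := fun _ h1 => htype (by rw [← h1, t0z])
        hT1 := by
          intro hA1
          simp at hA1 }
    have invI : InvE h f a c Pt (Φ a 1 ∈ D) s0 hI gI a0 n0 (a0 + a1 + m) (n0 + n1) :=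
      { geom := ⟨G.childI hn0 hn1 mh mg hI gI hhI hgI⟩
        hn0 := hn0
        hn1 := by omega
        hz0 := inv.hz0
        hz1 := haz
        hJ1 := fun mh' mg' h1 h2 => ⟨(Nat.mul_le_mul_left _ (hmI mh' mg' h1 h2)).trans hJ1.1,
          arith3 a0 n0 a1 n1 m _ hn0 hn1 (hmI mh' mg' h1 h2) hJ1.1 hJ1.2⟩
        hJ2 := fun ha0 => by
          have := arith2 a1 n1 a0 n0 m hn1 hn0 ha0 hJ1.1 inv.hJ2
          rwa [add_comm a1 a0, add_comm n1 n0] at this
        hJ2' := fun _ => by
          have := arith1 a1 n1 a0 n0 m hn1 hn0 hm inv.hz1 inv.hJ2'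
          rwa [add_comm a1 a0, add_comm n1 n0] at this
        hH0 := by
          intro hA0 μ' hμ'
          rw [t0I] at hμ'
          have h2 := inv.hH0 hA0 (m + μ') (hμ'.shift (hresI _))
          intro h3
          apply h2
          push_cast at h3 ⊢
          linear_combination h3 - hA0
        hH1 := by
          intro hA μ' hμ'
          obtain ⟨μ, μI, hμ, hμI, h2, h3, h4, h5⟩ := han hA
          rw [t1I] at hμ'
          rwa [← hμI.unique hμ']
        hT0 := fun hA0 h1 => inv.hT0 hA0 (by rw [← h1, t0I])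
        hT1 := fun _ h1 => htype (by rw [← h1, t1I]) }
    obtain ⟨c00, m00, c01, m01, h00, h01, h02⟩ := ih0 inv0
    obtain ⟨cI0, mI0, cI1, mI1, hI0, hI1, hI2⟩ := ihI invI
    set facE := Φ (a0 + a1 + m) (n0 + n1) with hfacE
    have hcc2 : ∀ z ∈ S.erase 0, ∃ κ' : R, κ' ∈ D ∧
        (((n0 + n1 : ℕ) : ℂ) + ((a0 + a1 + m : ℕ) : ℂ) * s0 = 0 → ∀ μ,
          Ord0 (fam t a (hc z) (gc z)) μ → κ' = Φ μ 1 * typeFactor Φ a t) ∧
        Zc z - κ' * facE ∈ D := by
      intro z hzS
      rw [Finset.mem_erase] at hzS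
      obtain ⟨κ', mκ, κ'', mκ', h2, h3, h4⟩ := ihc z hzS.2 hzS.1 (invc z hzS.1)
      refine ⟨κ', mκ, ?_, ?_⟩
      · intro hA μ hμ
        have h5 := h2 hA μ (by rw [t0z]; exact hμ)
        rw [zero_add, t0z] at h5
        exact h5
      · have h5 := D.add_mem h4 mκ'
        rw [hD.one, mul_one, sub_add_cancel] at h5
        exact h5
    choose! κ' hκ0 hκ1 hκ2 using hcc2
    set δ : R := β0 (branch (edge a a1 t (hc 0) (gc 0))) with hδ
    set β : R := cI1 + c00 + ∑ z ∈ S.erase 0, κ' z + (l - (S.card : R) + δ) * typeFactor Φ a t with hβ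
    have hβE : β * facE ∈ D := by
      by_cases hA : ((n0 + n1 : ℕ) : ℂ) + ((a0 + a1 + m : ℕ) : ℂ) * s0 = 0
      · obtain ⟨μ, μI, hμ, hμI, h2, h3, h4, u1, k1, u2, k2, h5, h6, h7, h8, h9, h10, h11, h12,
          h13⟩ := han hA
        have e2 := hI1 hA μI (by rw [t1I]; exact hμI)
        have e3 := h00 hA (μ 0) (by rw [t0z]; exact hμ 0)
        rw [t1I] at e2
        rw [t0z] at e3
        have e4 : ∀ z ∈ S.erase 0, κ' z = Φ (μ z) 1 * typeFactor Φ a t := fun z hzS =>
          hκ1 z hzS hA (μ z) (hμ z)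
        have e5 := h13 R Φ l hD.one
        have e6 : β = (Φ u1 k1 + Φ u2 k2 + (l - 1) + δ) * typeFactor Φ a t := by
          rw [hβ, Finset.sum_congr rfl e4, e2, e3, ← Finset.sum_mul, ← e5]
          ring
        have e8 : β * facE = (Φ u1 k1 + Φ u2 k2 + (l - 1) + δ) * Φ (u1 + u2) (k1 + k2)
            * typeFactor Φ a t := by
          rw [e6, hfacE, h5, h6]
          ring
        rw [e8]
        by_cases hpar : Even (u1 + u2)
        · by_cases hta : t = true → Even a
          · have hcard : (branch (edge a a1 t (hc 0) (gc 0))).card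
                = (if Even u1 then 0 else 1) + (if Even u2 then 0 else 1) := by
              refine branch_count (a0 := a0) hhc hgc hhI hgI S h0S t hS hta (fun z => μ z) μI hμ hμI ?_ u1 u2
                (fun Φ' hΦ' => ?_)
              · rw [← hmd, ← h5]
                exact hpar
              · have h14 := h13 ℤ (fun n _ => Φ' n) 0 hΦ'
                linear_combination h14
            by_cases hu1 : Even u1
            · have hu2 : Even u2 := (Nat.even_add.1 hpar).1 hu1
              rw [if_pos hu1, if_pos hu2] at hcard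
              have hδ0 : δ = 0 := hD.b0 _ hcard
              rw [hδ0, add_zero]
              exact D.mul_mem (hD.beta u1 k1 u2 k2 (by omega) h7 h8 h9 h10 h11 h12 hu1 hu2) htf
            · have hu2 : ¬ Even u2 := fun h => hu1 ((Nat.even_add.1 hpar).2 h)
              rw [if_neg hu1, if_neg hu2] at hcard
              have hδ0 : δ = 1 - l := hD.b2 _ hcard
              have : Φ u1 k1 + Φ u2 k2 + (l - 1) + δ = 0 := by
                rw [hδ0, hD.odd _ _ hu1, hD.odd _ _ hu2]
                ring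
              rw [this, zero_mul, zero_mul]
              exact D.zero_mem
          · push Not at hta
            obtain ⟨rfl, hodd⟩ := hta
            have : typeFactor Φ a true = 0 := hD.odd a 1 hodd
            rw [this, mul_zero]
            exact D.zero_mem
        · rw [hD.odd _ _ hpar, mul_zero, zero_mul]
          exact D.zero_mem
      · exact D.mul_mem (D.add_mem (D.add_mem (D.add_mem mI1 m00) (Subring.sum_mem _ hκ0))
          (D.mul_mem (D.add_mem (D.sub_mem hD.ell (natCast_mem D _)) (hD.bmem _)) htf))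
          (hD.reg _ _ (by omega) hA)
    have hsum : ∑ z ∈ S.erase 0, (Zc z - κ' z * facE) ∈ D :=
      Subring.sum_mem _ fun z hzS => hκ2 z hzS
    rw [Finset.sum_sub_distrib, ← Finset.sum_mul] at hsum
    have hfin := D.add_mem (D.add_mem (D.add_mem h02 hI2) hsum) hβE
    have heq : ZI + ∑ z ∈ S, Zc z + (l - (S.card : R) + δ) * (facE * typeFactor Φ a t)
          - cI0 * Φ a0 n0 - c01 * Φ a1 n1
        = Zc 0 - c00 * facE - c01 * Φ a1 n1
          + (ZI - cI0 * Φ a0 n0 - cI1 * facE)
          + (∑ z ∈ S.erase 0, Zc z - (∑ z ∈ S.erase 0, κ' z) * facE)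
          + β * facE := by
      rw [← Finset.add_sum_erase S Zc h0S, hβ]
      ring
    rw [← heq] at hfin
    -- the correction terms
    have hcor0 : ∃ c0 ∈ D, ((n0 : ℂ) + a0 * s0 = 0 → ∀ μ, Ord0 (fam (t0 g) a h' g) μ →
          c0 = Φ (a1 + μ) n1 * typeFactor Φ a (t0 g)) ∧ (cI0 - c0) * Φ a0 n0 ∈ D := by
      by_cases hcase : (n0 : ℂ) + a0 * s0 = 0 ∧ ∃ μ, Ord0 (fam (t0 g) a h' g) μ
      · obtain ⟨hA0, μ, hμ⟩ := hcase
        have hnz := inv.hH0 hA0 μ hμ
        have hτ : typeFactor Φ a (t0 g) ∈ D := tfm _ (inv.hT0 hA0)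
        obtain ⟨ν, rfl, hν⟩ := hμ.unshift (hresI _)
        have h2 := hI0 hA0 ν (by rw [t0I]; exact hν)
        rw [t0I] at h2
        have ha0 : 1 ≤ a0 := Nat.one_le_iff_ne_zero.2 (a_ne_zero inv.hz0 hA0)
        have hp := hD.pass a0 n0 (a1 + (m + ν)) n1 ha0 (by omega) hn0 hn1 hA0 hnz
        refine ⟨Φ (a1 + (m + ν)) n1 * typeFactor Φ a (t0 g), D.mul_mem (hD.reg _ _ hn1 ?_) hτ,
          ?_, ?_⟩
        · rw [mul_comm]
          exact hnz
        · intro _ μ' hμ'
          rw [← hμ.unique hμ']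
        · have h3 := D.mul_mem hp hτ
          rw [h2, show a0 + a1 + m + ν = a0 + (a1 + (m + ν)) by omega]
          convert h3 using 1
          ring
      · refine ⟨cI0, mI0, ?_, ?_⟩
        · intro h1 μ hμ
          exact absurd ⟨h1, μ, hμ⟩ hcase
        · rw [sub_self, zero_mul]
          exact D.zero_mem
    have hcor1 : ∃ c1 ∈ D, ((n1 : ℂ) + a1 * s0 = 0 → ∀ μ, Ord1 (fam (t1 g) a h' g) μ →
          c1 = Φ (a0 + μ) n0 * typeFactor Φ a (t1 g)) ∧ (c01 - c1) * Φ a1 n1 ∈ D := by
      by_cases hcase : (n1 : ℂ) + a1 * s0 = 0 ∧ ∃ μ, Ord1 (fam (t1 g) a h' g) μ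
      · obtain ⟨hA1, μ, hμ⟩ := hcase
        have hnz := inv.hH1 hA1 μ hμ
        have hτ : typeFactor Φ a (t1 g) ∈ D := tfm _ (inv.hT1 hA1)
        obtain ⟨ν, rfl, hν⟩ := hμ.unshift (hres0 _)
        have h2 := h01 hA1 ν (by rw [t10]; exact hν)
        rw [t10] at h2
        have ha1 : 1 ≤ a1 := Nat.one_le_iff_ne_zero.2 (a_ne_zero inv.hz1 hA1)
        have hp := hD.pass a1 n1 (a0 + (m + ν)) n0 ha1 (by omega) hn1 hn0 hA1 hnz
        refine ⟨Φ (a0 + (m + ν)) n0 * typeFactor Φ a (t1 g), D.mul_mem (hD.reg _ _ hn0 ?_) hτ,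
          ?_, ?_⟩
        · rw [mul_comm]
          exact hnz
        · intro _ μ' hμ'
          rw [← hμ.unique hμ']
        · have h3 := D.mul_mem hp hτ
          rw [h2, show a0 + a1 + m + ν = a1 + (a0 + (m + ν)) by omega, add_comm n0 n1]
          convert h3 using 1
          ring
      · refine ⟨c01, m01, ?_, ?_⟩
        · intro h1 μ hμ
          exact absurd ⟨h1, μ, hμ⟩ hcase
        · rw [sub_self, zero_mul]
          exact D.zero_mem
    obtain ⟨c0, mc0, hc0, hc0'⟩ := hcor0
    obtain ⟨c1, mc1, hc1', hc1''⟩ := hcor1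
    refine ⟨c0, mc0, c1, mc1, hc0, hc1', ?_⟩
    have := D.add_mem (D.add_mem hfin hc0') hc1''
    convert this using 1
    ring

/-- **The zeta function of a point is regular at `s0`** if `Ev H F s0`. -/
theorem point_regQ (hF : FF h f a ≠ 0)
    (hH : MvPolynomial.eval (Sum.elim Pt c) H ≠ 0) (ha : 1 ≤ a) (hE : Ev H (FF h f a) s0)
    (hD : ZQ D s0 Φ l β0) (hS1 : s0 ≠ -1 ∨ ∀ N : ℕ, 1 ≤ N → Φ N 1 ∈ D) {Z : R}
    (hZ : GermX Φ l β0 a (translate Pt h) (fun j => translate Pt (fc c f j)) 0 1 0 1 Z) :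
    Z ∈ D := by
  obtain ⟨c0, m0, c1, m1, _, _, h1⟩ := good_all hF hH ha hE hD hS1 hZ
    (inv_init h f a c Pt (Φ a 1 ∈ D) s0)
  rw [hD.one, mul_one, mul_one] at h1
  have h2 := D.add_mem (D.add_mem h1 m1) m0
  rwa [sub_add_cancel, sub_add_cancel] at h2

end Node

end Pool.Agent.J4H46.MQ
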