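import Pool.Agent.N103.V.Simple

set_option autoImplicit false
set_option linter.unusedSectionVars false
set_option linter.unusedVariables false
set_option linter.unusedSimpArgs false

/-! # The motivic zeta function: the pole `-1` is simple, if the evaluated functional equation holds
at `-1` -/

namespace Pool.Agent.J4H46.MQ

open Pool.Agent.W574.SM Pool.Agent.N103 Pool.Agent.N103.V Pool.Agent.W574.MO

open Polynomial

variable {M : Type} [CommRing M] (L : Mˣ)

/-- the local factors, with a variable instead of the one of `(1, 1)` -/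
noncomputable def mT (a n : ℕ) : (PowerSeries M)[X] := if a = 1 ∧ n = 1 then X else C (mf L a n)

theorem mT_eval (a n : ℕ) : (mT L a n).eval (mf L 1 1) = mf L a n := by
  rw [mT]
  split_ifs with h
  · rw [eval_X, h.1, h.2]
  · rw [eval_C]

theorem mT_C {a n : ℕ} (h : ¬ (a = 1 ∧ n = 1)) : mT L a n = C (mf L a n) := by
  rw [mT, if_neg h]

theorem mT_deg (a n : ℕ) : (mT L a n).natDegree ≤ 1 := by
  rw [mT]
  split_ifs with h
  · exact natDegree_X_le
  · rw [natDegree_C]
    exact Nat.zero_le 1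

/-- the polynomials with coefficients which are regular at `s0` -/
noncomputable def MT (s0 : ℂ) : Subring (PowerSeries M)[X] where
  carrier := {p | ∀ i, p.coeff i ∈ DenRing L (Kn s0)}
  mul_mem' := by
    intro p q hp hq i
    rw [coeff_mul]
    exact Subring.sum_mem _ fun x _ => Subring.mul_mem _ (hp _) (hq _)
  one_mem' := by
    intro i
    rw [coeff_one]
    split_ifs
    · exact Subring.one_mem _
    · exact Subring.zero_mem _
  add_mem' := by
    intro p q hp hq i
    rw [coeff_add]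
    exact Subring.add_mem _ (hp i) (hq i)
  zero_mem' := fun i => by
    rw [coeff_zero]
    exact Subring.zero_mem _
  neg_mem' := by
    intro p hp i
    rw [coeff_neg]
    exact Subring.neg_mem _ (hp i)

theorem C_mem_MT {s0 : ℂ} {x : PowerSeries M} (hx : x ∈ DenRing L (Kn s0)) : C x ∈ MT L s0 := by
  intro i
  rw [coeff_C]
  split_ifs
  · exact hx
  · exact Subring.zero_mem _

theorem X_mem_MT (s0 : ℂ) : (X : (PowerSeries M)[X]) ∈ MT L s0 := by
  intro i
  rw [coeff_X]
  split_ifs
  · exact Subring.one_mem _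
  · exact Subring.zero_mem _

theorem zdata_MT : ZData (MT L (-1)) (-1) (mT L) (C (PowerSeries.C (L : M))) where
  one := by
    rw [mT_C L (by decide), mf_zero, map_one]
  ell := C_mem_MT L (C_mem _)
  reg := by
    intro a n hn h
    rw [mT_C]
    · exact C_mem_MT L (mf_mem hn fun _ => h)
    · rintro ⟨rfl, rfl⟩
      apply h
      norm_num
  beta := by
    intro u1 k1 u2 k2 h0 hk1 hk2 hz1 hz2 h1 h2
    have e1 : mT L u1 k1 = C (mf L u1 k1) := by
      apply mT_C
      rintro ⟨rfl, rfl⟩
      apply h1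
      norm_num
    have e2 : mT L u2 k2 = C (mf L u2 k2) := by
      apply mT_C
      rintro ⟨rfl, rfl⟩
      apply h2
      norm_num
    have e3 : mT L (u1 + u2) (k1 + k2) = C (mf L (u1 + u2) (k1 + k2)) := by
      apply mT_C
      omega
    have h3 := (zdata_mot L (-1)).beta u1 k1 u2 k2 h0 hk1 hk2 hz1 hz2 h1 h2
    have h4 := C_mem_MT L h3
    rw [e1, e2, e3]
    simpa using h4
  pass := by
    intro a n u k ha hu hn hk h0 h1
    have e1 : mT L (a + u) (n + k) = C (mf L (a + u) (n + k)) := by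
      apply mT_C
      omega
    have e2 : mT L u k = C (mf L u k) := by
      apply mT_C
      rintro ⟨rfl, rfl⟩
      apply h1
      norm_num
    by_cases h : a = 1 ∧ n = 1
    · obtain ⟨rfl, rfl⟩ := h
      rw [e1, e2, ← C_sub]
      refine Subring.mul_mem _ (C_mem_MT L (Subring.sub_mem _ (mf_mem (by omega) fun _ => ?_)
        (mf_mem hk fun _ => ?_))) ?_
      · rw [Kn]
        intro h2
        apply h1
        push_cast at h2
        linear_combination h2
      · rw [Kn, mul_comm]
        exact h1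
      · rw [mT, if_pos ⟨rfl, rfl⟩]
        exact X_mem_MT L _
    · have h3 := C_mem_MT L ((zdata_mot L (-1)).pass a n u k ha hu hn hk h0 h1)
      rw [e1, e2, mT_C L h]
      simpa using h3

section Lift

variable {κ : Type} [Fintype κ] [DecidableEq κ]
variable {h : MP} {f : Option κ → MP} {a : ℕ} {c : κ → ℂ} {Pt : Fin 2 → ℂ}
variable {H : MvPolynomial (Fin 2 ⊕ κ) ℂ}

theorem tf_eval (a : ℕ) (t : Bool) :
    (typeFactor (mT L) a t).eval (mf L 1 1) = typeFactor (mf L) a t := by
  rcases t with _ | _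
  · exact eval_one
  · exact mT_eval L a 1

theorem tf_deg (a : ℕ) (t : Bool) : (typeFactor (mT L) a t).natDegree ≤ 1 := by
  rcases t with _ | _
  · show (1 : (PowerSeries M)[X]).natDegree ≤ 1
    rw [natDegree_one]
    exact Nat.zero_le 1
  · exact mT_deg L a 1

theorem deg_one {p q : (PowerSeries M)[X]} (hp : p.natDegree ≤ 1) (hq : q.natDegree ≤ 1)
    (h : p.natDegree = 0 ∨ q.natDegree = 0) (x : PowerSeries M) : (C x * p * q).natDegree ≤ 1 := by
  refine natDegree_mul_le.trans ?_
  have h1 : (C x * p).natDegree ≤ p.natDegree := natDegree_C_mul_le x p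
  rcases h with h | h <;> omega

/-- the factors which are not constant do not meet -/
theorem exists_lift (hH : MvPolynomial.eval (Sum.elim Pt c) H ≠ 0)
    (hE : Ev H (FF h f a) (-1)) {h' : MP} {g : Option κ → MP} {a0 n0 a1 n1 : ℕ} {Z : PowerSeries M}
    (hZ : GermZeta (mf L) (PowerSeries.C (L : M)) a h' g a0 n0 a1 n1 Z) :
    1 ≤ n0 → 1 ≤ n1 → ¬ (a0 = 1 ∧ n0 = 1) → ¬ (a1 = 1 ∧ n1 = 1) →
    Nonempty (GeomD h f a c Pt h' g a0 n0 a1 n1) →
    ∃ Y : (PowerSeries M)[X], GermZeta (mT L) (C (PowerSeries.C (L : M))) a h' g a0 n0 a1 n1 Y ∧ Y.eval (mf L 1 1) = Z ∧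
      Y.natDegree ≤ 1 := by
  classical
  induction hZ with
  | unit h' g a0 n0 a1 n1 hh t ht =>
    intro hn0 hn1 hz0 hz1 hG
    refine ⟨_, GermZeta.unit h' g a0 n0 a1 n1 hh t ht, ?_, ?_⟩
    · rw [eval_mul, eval_mul, mT_eval, mT_eval, tf_eval]
    · rw [mT_C L hz0, mT_C L hz1]
      exact deg_one (by rw [natDegree_C]; exact Nat.zero_le 1) (tf_deg L a t)
        (Or.inl (natDegree_C _)) _
  | curveV h' g a0 n0 mh mg hm q kh k hh hg h0 h1 hkh t ht =>
    intro hn0 hn1 hz0 hz1 hG
    refine ⟨_, GermZeta.curveV h' g a0 n0 mh mg hm q kh k hh hg h0 h1 hkh t ht, ?_, ?_⟩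
    · rw [eval_mul, eval_mul, mT_eval, mT_eval, tf_eval]
    · rw [mT_C L hz0]
      refine deg_one (mT_deg L _ _) (tf_deg L a t) ?_ _
      rcases t with _ | _
      · exact Or.inr natDegree_one
      · by_cases hc : mh + a * mg = 1 ∧ a = 1
        · exfalso
          obtain ⟨G⟩ := hG
          have ht' : MvPolynomial.constantCoeff (k none) = 0 ∧ ∃ j,
            MvPolynomial.constantCoeff (k (some j)) ≠ 0 := ht
          obtain ⟨hk0, j, hj⟩ := ht'
          exact cross_leaf hH hc.2 G mh mg hc.1 hE q kh k hh hg h0 h1 hkh hk0 j hj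
        · by_cases hc1 : mh + a * mg = 1
          · right
            show (mT L a 1).natDegree = 0
            rw [mT_C L (fun h => hc ⟨hc1, h.1⟩), natDegree_C]
          · left
            rw [mT_C L (fun h => hc1 h.1), natDegree_C]
  | curveU h' g a1 n1 mh mg hm q kh k hh hg h0 h1 hkh t ht =>
    intro hn0 hn1 hz0 hz1 hG
    refine ⟨_, GermZeta.curveU h' g a1 n1 mh mg hm q kh k hh hg h0 h1 hkh t ht, ?_, ?_⟩
    · rw [eval_mul, eval_mul, mT_eval, mT_eval, tf_eval]
    · rw [mT_C L hz1]
      refine deg_one (mT_deg L _ _) (tf_deg L a t) ?_ _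
      rcases t with _ | _
      · exact Or.inr natDegree_one
      · by_cases hc : mh + a * mg = 1 ∧ a = 1
        · exfalso
          obtain ⟨G⟩ := hG
          have ht' : MvPolynomial.constantCoeff (k none) = 0 ∧ ∃ j,
            MvPolynomial.constantCoeff (k (some j)) ≠ 0 := ht
          obtain ⟨hk0, j, hj⟩ := ht'
          refine cross_leaf hH hc.2 G.swap mh mg hc.1 hE (sw q) (sw kh) (fun j => sw (k j))
            (by rw [hh, map_mul, map_pow]) (fun j => by rw [hg, map_mul, map_pow])
            (by rwa [cc_sw]) ?_ (by rwa [cc_sw]) (by rw [cc_sw]; exact hk0) j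
            (by rw [cc_sw]; exact hj)
          rw [(pderiv_sw q).2, cc_sw]
          exact h1
        · by_cases hc1 : mh + a * mg = 1
          · right
            show (mT L a 1).natDegree = 0
            rw [mT_C L (fun h => hc ⟨hc1, h.1⟩), natDegree_C]
          · left
            rw [mT_C L (fun h => hc1 h.1), natDegree_C]
  | blowup h' g a0 n0 a1 n1 mh mg hm hc gc hI gI hhc hgc hhI hgI S h0S t hS Zc ZI hz0 hcS hZI
      ih0 ihc ihI =>
    intro hn0 hn1 hy0 hy1 hG
    obtain ⟨G⟩ := hG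
    obtain ⟨Y0, hY0, e0, d0⟩ := ih0 (by omega) hn1 (by omega) hy1
      ⟨G.child0 hn0 hn1 mh mg (hc 0) (gc 0) (hhc 0) (hgc 0)⟩
    obtain ⟨YI, hYI, eI, dI⟩ := ihI hn0 (by omega) hy0 (by omega)
      ⟨G.childI hn0 hn1 mh mg hI gI hhI hgI⟩
    have hch : ∀ c' : ℂ, ∃ Y : (PowerSeries M)[X], (c' ∈ S → c' ≠ 0 →
        GermZeta (mT L) (C (PowerSeries.C (L : M))) a (hc c') (gc c') (a0 + a1 + (mh + a * mg)) (n0 + n1) 0 1 Y ∧
          Y.eval (mf L 1 1) = Zc c' ∧ Y.natDegree ≤ 1) := by
      intro c'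
      by_cases hcS : c' ∈ S ∧ c' ≠ 0
      · obtain ⟨Y, hY, e⟩ := ihc c' hcS.1 hcS.2 (by omega) le_rfl (by omega) (by omega)
          ⟨G.child hn0 hn1 mh mg c' hcS.2 (hc c') (gc c') (hhc c') (hgc c')⟩
        exact ⟨Y, fun _ _ => ⟨hY, e⟩⟩
      · exact ⟨0, fun h1 h2 => absurd ⟨h1, h2⟩ hcS⟩
    choose Y hY using hch
    let Yc : ℂ → (PowerSeries M)[X] := fun c' => if c' = 0 then Y0 else Y c'
    have hYc : ∀ c' ∈ S, (Yc c').eval (mf L 1 1) = Zc c' ∧ (Yc c').natDegree ≤ 1 := by
      intro c' hcS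
      by_cases h : c' = 0
      · simp only [Yc, if_pos h]
        rw [h]
        exact ⟨e0, d0⟩
      · simp only [Yc, if_neg h]
        exact (hY c' hcS h).2
    refine ⟨_, GermZeta.blowup h' g a0 n0 a1 n1 mh mg hm hc gc hI gI hhc hgc hhI hgI S h0S t hS Yc
      YI ?_ ?_ hYI, ?_, ?_⟩
    · simp only [Yc, if_pos]
      exact hY0
    · intro c' hcS h
      simp only [Yc, if_neg h]
      exact (hY c' hcS h).1
    · rw [eval_add, eval_add, eval_finsetSum, eI, Finset.sum_congr rfl fun c' hc' => (hYc c' hc').1,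
        eval_mul, eval_mul, mT_eval, tf_eval, eval_sub, eval_C, eval_natCast]
    · refine (natDegree_add_le _ _).trans (max_le ((natDegree_add_le _ _).trans (max_le dI ?_)) ?_)
      · exact natDegree_sum_le_of_forall_le _ _ fun c' hc' => (hYc c' hc').2
      · have h2 : mT L (a0 + a1 + (mh + a * mg)) (n0 + n1)
          = C (mf L (a0 + a1 + (mh + a * mg)) (n0 + n1)) := mT_C L (by omega)
        have h3 : (C (PowerSeries.C (L : M)) - (S.card : (PowerSeries M)[X])) * (mT L (a0 + a1 + (mh + a * mg)) (n0 + n1) *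
            typeFactor (mT L) a t)
            = C (PowerSeries.C (L : M) - (S.card : PowerSeries M)) * C (mf L (a0 + a1 + (mh + a * mg)) (n0 + n1)) *
              typeFactor (mT L) a t := by
          rw [h2, C_sub, C_eq_natCast]
          ring
        rw [h3]
        exact deg_one (by rw [natDegree_C]; exact Nat.zero_le 1) (tf_deg L a t)
          (Or.inl (natDegree_C _)) _

/-- **The pole `-1` of the contribution of a point is simple**, if the evaluated functional
equation holds. -/
theorem point_simpleM (hF : FF h f a ≠ 0) (hH : MvPolynomial.eval (Sum.elim Pt c) H ≠ 0)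
    (ha : 1 ≤ a) (hE : Ev H (FF h f a) (-1)) {Z : PowerSeries M}
    (hZ : PointZeta (mf L) (PowerSeries.C (L : M)) h f a Pt c Z) :
    (1 - qq L 1 1) * Z ∈ DenRing L (Kn (-1)) := by
  obtain ⟨Y, hY, e, d⟩ := exists_lift L (c := c) (Pt := Pt) (h := h) (f := f) hH hE hZ le_rfl le_rfl
    (by decide) (by decide) ⟨geomInit h f a c Pt⟩
  have h1 : Y ∈ MT L (-1) := by
    refine Pool.Agent.N103.V.point_reg hF hH ha hE (zdata_MT L) (Or.inr fun N hN => ?_) hY
    by_cases hN1 : N = 1
    · rw [hN1, mT, if_pos ⟨rfl, rfl⟩]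
      exact X_mem_MT L _
    · rw [mT_C L (fun h => hN1 h.1)]
      refine C_mem_MT L (mf_mem le_rfl fun _ => ?_)
      rw [Kn]
      intro h2
      apply hN1
      push_cast at h2
      have h3 : (N : ℂ) = 1 := by linear_combination -h2
      exact_mod_cast h3
  have h2 : Z = Y.coeff 0 + Y.coeff 1 * mf L 1 1 := by
    rw [← e]
    conv_lhs => rw [eq_X_add_C_of_natDegree_le_one d]
    simp
    ring
  have h3 : (1 - qq L 1 1) * mf L 1 1 = PowerSeries.C ((L : M) - 1) * qq L 1 1 := by
    rw [mf_pos L le_rfl]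
    linear_combination (PowerSeries.C ((L : M) - 1) * qq L 1 1) * geo_mul L (le_refl 1) 1
  have h5 : (1 - qq L 1 1) * Z = (1 - qq L 1 1) * Y.coeff 0
      + Y.coeff 1 * (PowerSeries.C ((L : M) - 1) * qq L 1 1) := by
    rw [h2]
    linear_combination (Y.coeff 1) * h3
  rw [h5]
  exact Subring.add_mem _ (Subring.mul_mem _ (Subring.sub_mem _ (Subring.one_mem _)
    (qq_mem _ _)) (h1 0)) (Subring.mul_mem _ (h1 1) (Subring.mul_mem _ (C_mem _) (qq_mem _ _)))

end Lift

end Pool.Agent.J4H46.MQ
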