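import Pool.Agent.J4H46.MQ.Core
import Pool.Agent.J4H46.MQ.NodeQB
import Pool.Agent.J4H46.MQ.SimpleM
import Pool.Agent.N103.V.GoodB
import Pool.Agent.N103.MotCl

set_option autoImplicit false
set_option linter.unusedSectionVars false
set_option linter.unusedVariables false

/-! # The properties of the motivic zeta functions -/

namespace Pool.Agent.J4H46.MQ

open PowerSeries Pool.Agent.W574.MO Pool.Agent.W574.RO Pool.Agent.W574.SM Pool.Agent.N103
  Pool.Agent.N103.V Pool.Agent.R852.MC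

variable {M : Type} [CommRing M]

theorem den_mono {L : Mˣ} {K K' : ℕ → ℕ → Prop} (h : ∀ a n, 1 ≤ a → 1 ≤ n → K a n → K' a n)
    {x : M⟦X⟧} (hx : x ∈ DenRing L K) : x ∈ DenRing L K' := by
  refine Subring.closure_mono (Set.union_subset_union_right _ ?_) hx
  rintro u ⟨a, n, ha, hn, hK, hu⟩
  exact ⟨a, n, ha, hn, h a n ha hn hK, hu⟩

/-- the properties of the zeta functions -/
structure MGood (L : Mˣ) {σ : Type} (F : MvPolynomial σ ℂ) (p : σ → ℂ) (Z Y : M⟦X⟧) : Prop where
  ne : F ≠ 0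
  zero : MvPolynomial.eval p F = 0
  all : red L Z ∈ DenRing L (fun _ _ => True) ∧ Y ∈ DenRing L (fun _ _ => True)
  reg : ∀ (H : MvPolynomial σ ℂ) (s : ℂ), MvPolynomial.eval p H ≠ 0 → Ev H F s →
    red L Z ∈ DenRing L (Kn s) ∧ Y ∈ DenRing L (Kn s)

theorem Kn_nat (k : ℕ) : ∀ a n, 1 ≤ a → 1 ≤ n → True → Kn (k : ℂ) a n := by
  intro a n ha hn _
  rw [Kn]
  intro h
  have h1 : ((n + a * k : ℕ) : ℂ) = 0 := by
    push_cast
    exact h
  rw [Nat.cast_eq_zero] at h1
  omega

variable {L : Mˣ}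

theorem good_smooth {σ : Type} (F : MvPolynomial σ ℂ) (p : σ → ℂ)
    (h0 : MvPolynomial.eval p F = 0) (i : σ)
    (h1 : MvPolynomial.eval p (MvPolynomial.pderiv i F) ≠ 0) :
    MGood L F p (mf L 1 1) (0 : M⟦X⟧) where
  ne := by
    rintro rfl
    rw [map_zero, map_zero] at h1
    exact h1 rfl
  zero := h0
  all := by
    rw [red_mf]
    exact ⟨Subring.zero_mem _, Subring.zero_mem _⟩
  reg := by
    intro H s _ _
    rw [red_mf]
    exact ⟨Subring.zero_mem _, Subring.zero_mem _⟩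

/-- the suspension -/
theorem sq_mem {K K' : ℕ → ℕ → Prop} (hK : ∀ a n, 1 ≤ a → 1 ≤ n → K a n → K' (2 * a) (2 * n + a))
    {Z Y : M⟦X⟧} (h : red L Z ∈ DenRing L K ∧ Y ∈ DenRing L K) :
    red L (sqZ L Z Y) ∈ DenRing L K' ∧ sqY L Z ∈ DenRing L K' := by
  rw [red_sqZ, sqY_eq]
  exact ⟨Subring.sub_mem _ (ops_mem hK h.1).2 (ops_mem hK h.2).1,
    Subring.neg_mem _ (Subring.mul_mem _ (C_mem _) (ops_mem hK h.1).1)⟩

theorem good_square {σ : Type} {G : MvPolynomial σ ℂ} {p : σ → ℂ} {Z Y : M⟦X⟧}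
    (hG : MGood L G p Z Y) :
    MGood L (Fd 2 G) (fun i : Option σ => i.elim 0 p) (sqZ L Z Y) (sqY L Z) where
  ne := Fd_ne le_rfl
  zero := by
    rw [Fd, map_add, map_pow, MvPolynomial.eval_X, MvPolynomial.eval_rename]
    have h1 : (fun i : Option σ => i.elim 0 p) ∘ some = p := rfl
    rw [h1, hG.zero, add_zero]
    exact zero_pow (by omega)
  all := sq_mem (fun _ _ _ _ _ => trivial) hG.all
  reg := by
    intro H s hH hE
    by_cases hs : ∃ n : ℕ, s = n
    · obtain ⟨n, rfl⟩ := hs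
      have h1 := sq_mem (K' := fun _ _ => True) (fun _ _ _ _ _ => trivial) hG.all
      exact ⟨den_mono (Kn_nat n) h1.1, den_mono (Kn_nat n) h1.2⟩
    · push Not at hs
      have hE' := susp le_rfl hs hE
      have hH' : MvPolynomial.eval p (cz H) ≠ 0 := by
        rw [eval_cz]
        exact hH
      refine sq_mem (fun a n ha hn h => ?_) (hG.reg _ _ hH' hE')
      rw [Kn] at h ⊢
      intro h2
      apply h
      push_cast at h2 ⊢
      linear_combination h2 / 2

/-- the powers -/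
theorem pow_mem {K K' : ℕ → ℕ → Prop} (k : ℕ) (hk : k ≠ 0)
    (hK : ∀ a n, 1 ≤ a → 1 ≤ n → K a n → K' (k * a) n) (h1 : K' k 1)
    {Z Y : M⟦X⟧} (h : red L Z ∈ DenRing L K ∧ Y ∈ DenRing L K) :
    red L (expand k hk Z) ∈ DenRing L K' ∧
      (if Even k then expand k hk Z else expand k hk Y) ∈ DenRing L K' := by
  have hg : geo L k 1 ∈ DenRing L K' := geo_mem (Nat.one_le_iff_ne_zero.2 hk) le_rfl h1
  have hW := expand_mem k hk hK _ h.1
  have hY := expand_mem k hk hK _ h.2
  have hX : ∀ j, (X ^ j : M⟦X⟧) ∈ DenRing L K' := fun j => Subring.pow_mem _ X_mem j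
  constructor
  · rw [red_expand]
    exact Subring.mul_mem _ hg (Subring.sub_mem _ (Subring.mul_mem _ (Subring.mul_mem _
      (Subring.sub_mem _ (Subring.one_mem _) (qq_mem _ _)) (X_pow_sum_mem k)) hW)
      (Subring.mul_mem _ (Subring.mul_mem _ (C_mem _) X_mem) (X_pow_sum_mem _)))
  · split_ifs
    · rw [expand_red L]
      exact Subring.mul_mem _ hg (Subring.add_mem _ (Subring.mul_mem _ (Subring.sub_mem _
        (Subring.one_mem _) (hX k)) hW) (Subring.mul_mem _ (C_mem _) (hX k)))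
    · exact hY

theorem good_pow {σ : Type} {G : MvPolynomial σ ℂ} {p : σ → ℂ} {Z Y : M⟦X⟧} (k : ℕ) (hk : 2 ≤ k)
    (hk0 : k ≠ 0) (hG : MGood L G p Z Y) :
    MGood L (G ^ k) p (expand k hk0 Z) (if Even k then expand k hk0 Z else expand k hk0 Y) where
  ne := pow_ne_zero _ hG.ne
  zero := by rw [map_pow, hG.zero, zero_pow hk0]
  all := pow_mem k hk0 (fun _ _ _ _ _ => trivial) trivial hG.all
  reg := by
    intro H s hH hE
    refine pow_mem k hk0 (fun a n ha hn h => ?_) ?_ (hG.reg H _ hH (ev_pow (by omega) hE))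
    · rw [Kn] at h ⊢
      intro h2
      apply h
      push_cast at h2
      linear_combination h2
    · rw [Kn]
      intro h2
      have hkc : (k : ℂ) ≠ 0 := Nat.cast_ne_zero.2 hk0
      refine pow_contra (k := k) hk hG.ne hG.zero hH ?_
      have h3 : (-1 / (k : ℂ)) = s := by
        rw [div_eq_iff hkc]
        push_cast at h2
        linear_combination -h2
      rw [h3]
      exact hE

section Lin

variable {κ : Type} [Fintype κ] [DecidableEq κ]

/-- the factors of the twisted zeta function -/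
theorem mf2_even {a n : ℕ} (h : Even a) : (mf2 L a n : M⟦X⟧) = mf L a n := if_pos h

theorem mf2_odd {a n : ℕ} (h : ¬ Even a) : (mf2 L a n : M⟦X⟧) = 0 := if_neg h

theorem zq_mot (cl : Finset (Option ℂ) → M) (h0 : ∀ B, B.card = 0 → cl B = 2 * ((L : M) + 1))
    (h2 : ∀ B, B.card = 2 → cl B = (L : M) + 1) (s0 : ℂ) :
    ZQ (DenRing L (Kn s0)) s0 (mf2 L) (C (L : M)) (bq L cl) where
  one := by
    rw [mf2_even Even.zero, mf_zero]
  ell := C_mem _
  reg := by
    intro a n hn h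
    by_cases ha : Even a
    · rw [mf2_even ha]
      exact mf_mem hn fun _ => h
    · rw [mf2_odd ha]
      exact Subring.zero_mem _
  beta := by
    intro u1 k1 u2 k2 h0 hk1 hk2 hz1 hz2 h1 h2 hu1 hu2
    rw [mf2_even hu1, mf2_even hu2, mf2_even (hu1.add hu2)]
    exact (zdata_mot L s0).beta u1 k1 u2 k2 h0 hk1 hk2 hz1 hz2 h1 h2
  pass := by
    intro a n u k ha hu hn hk h0 h1
    by_cases hae : Even a
    · by_cases hue : Even u
      · rw [mf2_even hae, mf2_even hue, mf2_even (hae.add hue)]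
        exact (zdata_mot L s0).pass a n u k ha hu hn hk h0 h1
      · have h3 : ¬ Even (a + u) := fun h => hue ((Nat.even_add.1 h).1 hae)
        rw [mf2_odd hue, mf2_odd h3, sub_zero, zero_mul]
        exact Subring.zero_mem _
    · rw [mf2_odd hae, mul_zero]
      exact Subring.zero_mem _
  odd := fun a n h => mf2_odd h
  bmem := fun B => C_mem _
  b0 := by
    intro B hB
    rw [bq, h0 B hB, hB, Nat.cast_zero, add_zero, sub_self, map_zero]
  b2 := by
    intro B hB
    rw [bq, h2 B hB, hB, ← map_one (C (R := M)), ← map_sub]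
    congr 1
    push_cast
    ring

theorem germx_all {R : Type} [CommRing R] {Φ : ℕ → ℕ → R} {l : R} {β : Finset (Option ℂ) → R}
    {D : Subring R} (hl : l ∈ D) (hβ : ∀ B, β B ∈ D) (hΦ : ∀ a n, 1 ≤ n → Φ a n ∈ D) {a : ℕ}
    {h : MP} {g : Option κ → MP} {a0 n0 a1 n1 : ℕ} {Z : R}
    (hZ : GermX Φ l β a h g a0 n0 a1 n1 Z) (hn0 : 1 ≤ n0) (hn1 : 1 ≤ n1) : Z ∈ D := by
  classical
  have htf : ∀ (a : ℕ) (t : Bool), typeFactor Φ a t ∈ D := by
    intro a t
    rcases t with _ | _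
    · exact D.one_mem
    · exact hΦ a 1 le_rfl
  induction hZ with
  | unit h g a0 n0 a1 n1 hh t ht =>
    exact D.mul_mem (D.mul_mem (hΦ _ _ hn0) (hΦ _ _ hn1)) (htf _ _)
  | curveV h g a0 n0 mh mg hm q kh k hh hg h0 h1 hkh t ht =>
    exact D.mul_mem (D.mul_mem (hΦ _ _ hn0) (hΦ _ _ le_rfl)) (htf _ _)
  | curveU h g a1 n1 mh mg hm q kh k hh hg h0 h1 hkh t ht =>
    exact D.mul_mem (D.mul_mem (hΦ _ _ hn1) (hΦ _ _ le_rfl)) (htf _ _)
  | blowup h g a0 n0 a1 n1 mh mg hm hc gc hI gI hhc hgc hhI hgI S h0S t hS Zc ZI hz0 hcS hZI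
      ih0 ihc ihI =>
    refine D.add_mem (D.add_mem (ihI hn0 (by omega)) ?_)
      (D.mul_mem (D.add_mem (D.sub_mem hl (natCast_mem _ _)) (hβ _))
        (D.mul_mem (hΦ _ _ (by omega)) (htf _ _)))
    refine D.sum_mem fun c hcS => ?_
    by_cases h : c = 0
    · rw [h]
      exact ih0 (by omega) hn1
    · exact ihc c hcS h (by omega) le_rfl

/-- division by `1 - T` -/
theorem div_mem {K : ℕ → ℕ → Prop} {B : PowerSeries AA} (hB : B ∈ DenRing LL K) (hv : Pool.Agent.W574.RO.Val B 0) :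
    B * geo LL 1 0 ∈ DenRing LL K := by
  have h1 : Pool.Agent.W574.RO.Val (1 - B) 1 := by
    obtain ⟨D, N, h1, h2, h3⟩ := hv
    refine ⟨D, D - N, ?_, h2, ?_⟩
    · rw [Polynomial.coe_sub, ← h1]
      ring
    · rw [Polynomial.eval_sub, map_sub, h3]
      ring
  have h2 := tail_mem_of_val (Subring.sub_mem _ (Subring.one_mem _) hB) h1
  have h3 : tail 1 (1 - B) = 1 + X * (B * geo LL 1 0) := by
    symm
    apply eq_tail
    have h4 := geo10 LL
    rw [map_one]
    linear_combination (X * B) * h4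
  rw [h3] at h2
  have h4 : X ^ 1 * (B * geo LL 1 0) ∈ DenRing LL K := by
    have h5 := Subring.sub_mem _ h2 (Subring.one_mem _)
    rw [pow_one]
    rwa [add_sub_cancel_left] at h5
  exact of_X_pow_mul 1 _ h4

theorem val_pol (P : Polynomial AA) :
    Pool.Agent.W574.RO.Val (P : PowerSeries AA) (algebraMap AA Pool.Agent.W574.RO.FF (P.eval 1)) :=
  ⟨1, P, by simp, by simp, by simp⟩

/-- the reduced zeta function over `ℤ[L, L⁻¹]` -/
theorem red_mem {K : ℕ → ℕ → Prop} {Z : PowerSeries AA} (hZ : (1 - qq LL 1 1) * Z ∈ DenRing LL K)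
    (hv : Pool.Agent.W574.RO.Val Z 1) : red LL Z ∈ DenRing LL K := by
  rw [red]
  refine div_mem (Subring.sub_mem _ hZ (Subring.mul_mem _ (C_mem _) X_mem)) ?_
  have e1 : (1 - qq LL 1 1 : PowerSeries AA)
      = ((1 - Polynomial.C ((LL⁻¹ : AAˣ) : AA) * Polynomial.X : Polynomial AA) : PowerSeries AA) := by
    rw [qq11]
    simp
  have e2 : (-(C (1 - ((LL⁻¹ : AAˣ) : AA)) * X) : PowerSeries AA)
      = ((-(Polynomial.C (1 - ((LL⁻¹ : AAˣ) : AA)) * Polynomial.X) : Polynomial AA) :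
        PowerSeries AA) := by
    simp
  have h1 := ((val_pol (1 - Polynomial.C ((LL⁻¹ : AAˣ) : AA) * Polynomial.X)).mul hv).add
    (val_pol (-(Polynomial.C (1 - ((LL⁻¹ : AAˣ) : AA)) * Polynomial.X)))
  rw [← e1, ← e2] at h1
  have e3 : (1 - qq LL 1 1) * Z - C (1 - ((LL⁻¹ : AAˣ) : AA)) * X
      = (1 - qq LL 1 1) * Z + (-(C (1 - ((LL⁻¹ : AAˣ) : AA)) * X)) := by ring
  rw [e3]
  convert h1 using 1
  simp

/-- the homomorphism commutes with `red` -/
theorem Phi_red (Z : PowerSeries AA) : Pool.Agent.W574.MO.Phi L (red LL Z) = red L (Pool.Agent.W574.MO.Phi L Z) := by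
  apply Xcancel
  rw [red_eq]
  have h := congrArg (Pool.Agent.W574.MO.Phi L) (red_eq LL Z)
  have hX : Pool.Agent.W574.MO.Phi L (X : PowerSeries AA) = X := by rw [Pool.Agent.W574.MO.Phi, PowerSeries.map_X]
  have hLi : phi L ((LL⁻¹ : AAˣ) : AA) = ((L⁻¹ : Mˣ) : M) := by
    have := phi_pow L 1
    rwa [pow_one, pow_one] at this
  rw [map_mul, map_sub, map_sub, map_one, map_mul, map_mul, map_sub, map_one, hX, Phi_qq, Phi_C,
    map_sub, map_one, hLi] at h
  exact h

theorem good_lin (cl : Finset (Option ℂ) → M) (hc0 : ∀ B, B.card = 0 → cl B = 2 * ((L : M) + 1))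
    (hc2 : ∀ B, B.card = 2 → cl B = (L : M) + 1) (h : MP) (f : Option κ → MP) (a : ℕ)
    (ha : 1 ≤ a) (hF : FF h f a ≠ 0) (P : Fin 2 → ℂ) (c : κ → ℂ)
    (h0 : MvPolynomial.eval (Sum.elim P c) (FF h f a) = 0) (Z Y : M⟦X⟧)
    (hZ : PointZeta (mf L) (C (L : M)) h f a P c Z) (hY : PointQ L cl h f a P c Y) :
    MGood L (FF h f a) (Sum.elim P c) Z Y := by
  obtain ⟨Z0, hZ0, rfl⟩ := exists_univA L hZ
  have hv : Pool.Agent.W574.RO.Val Z0 1 := by
    have := val_localA hZ0 le_rfl le_rfl (fun _ => rfl) (fun _ => rfl)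
    rwa [div_self (lf_ne 1 le_rfl), one_mul] at this
  refine ⟨hF, h0, ⟨?_, ?_⟩, ?_⟩
  · rw [← Phi_red]
    exact Phi_mem L (red_mem (Subring.mul_mem _ (Subring.sub_mem _ (Subring.one_mem _)
      (qq_mem _ _)) (mem_allA LL hZ0 le_rfl le_rfl)) hv)
  · refine germx_all (C_mem _) (fun B => C_mem _) (fun a n hn => ?_) hY le_rfl le_rfl
    by_cases ha : Even a
    · rw [mf2_even ha]
      exact mf_mem hn fun _ => trivial
    · rw [mf2_odd ha]
      exact Subring.zero_mem _
  · intro H s hH hE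
    constructor
    · rw [← Phi_red]
      refine Phi_mem L (red_mem ?_ hv)
      by_cases hs : s = -1
      · rw [hs] at hE ⊢
        exact point_simpleM LL hF hH ha hE hZ0
      · exact Subring.mul_mem _ (Subring.sub_mem _ (Subring.one_mem _)
          (qq_mem _ _)) (Pool.Agent.N103.V.point_reg hF hH ha hE (zdata_mot LL s) (Or.inl hs) hZ0)
    · refine point_regQ hF hH ha hE (zq_mot cl hc0 hc2 s) ?_ hY
      by_cases hs : s = -1
      · right
        intro N hN
        by_cases hNe : Even N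
        · rw [mf2_even hNe]
          refine mf_mem le_rfl fun _ => ?_
          rw [Kn, hs]
          intro h2
          push_cast at h2
          have h4 : (N : ℂ) = 1 := by linear_combination -h2
          have h5 : N = 1 := by exact_mod_cast h4
          subst h5
          exact absurd hNe (by decide)
        · rw [mf2_odd hNe]
          exact Subring.zero_mem _
      · exact Or.inl hs

end Lin

/-- **The zeta functions in the class.** -/
theorem qz_good {cl : Finset (Option ℂ) → M} (hc0 : ∀ B, B.card = 0 → cl B = 2 * ((L : M) + 1))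
    (hc2 : ∀ B, B.card = 2 → cl B = (L : M) + 1) {σ : Type} {F : MvPolynomial σ ℂ} {p : σ → ℂ}
    {Z Y : M⟦X⟧} (hZ : QZ L cl σ F p Z Y) : MGood L F p Z Y := by
  induction hZ with
  | smooth F p h0 i h1 => exact good_smooth F p h0 i h1
  | lin h f a ha hF P c h0 Z Y hZ hY => exact good_lin cl hc0 hc2 h f a ha hF P c h0 Z Y hZ hY
  | square G p Z Y hG ih => exact good_square ih
  | pow k hk hk0 G p Z Y hG ih => exact good_pow k hk hk0 ih

end Pool.Agent.J4H46.MQ
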