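import Pool.Agent.J4H46.MQ.Good
import Pool.Agent.J4H46.MQ.UfdR

set_option autoImplicit false
set_option linter.unusedSectionVars false
set_option linter.unusedVariables false

/-! # The zeta functions come from a polynomial ring over `ℤ[L, L⁻¹]` -/

namespace Pool.Agent.J4H46.MQ

open PowerSeries Pool.Agent.W574.MO Pool.Agent.W574.SM Pool.Agent.N103 Pool.Agent.N103.V

/-- the polynomial ring over `ℤ[L, L⁻¹]` in the classes of the curves -/
abbrev UR : Type := MvPolynomial (Finset (Option ℂ)) AA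

/-- the unit `L` -/
noncomputable def UL : URˣ := Units.map (MvPolynomial.C : AA →+* UR).toMonoidHom LL

theorem UL_val : (UL : UR) = MvPolynomial.C ((LL : AAˣ) : AA) := rfl

theorem UL_pow (n : ℕ) : ((UL ^ n : URˣ) : UR) = MvPolynomial.C (((LL ^ n : AAˣ)) : AA) := by
  rw [Units.val_pow_eq_pow_val, Units.val_pow_eq_pow_val, map_pow]
  rfl

theorem UL_ne (k l : ℕ) (h : k ≠ l) : ((UL ^ k : URˣ) : UR) - ((UL ^ l : URˣ) : UR) ≠ 0 := by
  rw [UL_pow, UL_pow, ← map_sub]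
  intro h1
  exact LL_pow_ne h (MvPolynomial.C_injective _ _ (by rw [h1, map_zero]))

/-- the classes -/
noncomputable def ucl (B : Finset (Option ℂ)) : UR :=
  if B.card = 0 then 2 * ((UL : UR) + 1) else if B.card = 2 then (UL : UR) + 1
    else MvPolynomial.X B

theorem ucl0 (B : Finset (Option ℂ)) (h : B.card = 0) : ucl B = 2 * ((UL : UR) + 1) := by
  rw [ucl, if_pos h]

theorem ucl2 (B : Finset (Option ℂ)) (h : B.card = 2) : ucl B = (UL : UR) + 1 := by
  rw [ucl, if_neg (by omega), if_pos h]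

section Hom

variable {R M : Type} [CommRing R] [CommRing M] (ψ : R →+* M) {LR : Rˣ} {L : Mˣ}

theorem hom_inv_pow (hL : ψ (LR : R) = L) (n : ℕ) :
    ψ ((LR⁻¹ ^ n : Rˣ) : R) = ((L⁻¹ ^ n : Mˣ) : M) := by
  have h1 : ψ ((LR⁻¹ : Rˣ) : R) = ((L⁻¹ : Mˣ) : M) := by
    have h2 : ψ (LR : R) * ψ ((LR⁻¹ : Rˣ) : R) = 1 := by
      rw [← map_mul, ← Units.val_mul, mul_inv_cancel, Units.val_one, map_one]
    rw [hL] at h2
    rw [← Units.inv_mul_cancel_left L (ψ ((LR⁻¹ : Rˣ) : R)), h2, mul_one]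
  rw [Units.val_pow_eq_pow_val, map_pow, h1, Units.val_pow_eq_pow_val]

theorem map_qq (hL : ψ (LR : R) = L) (a n : ℕ) :
    PowerSeries.map ψ (qq LR a n) = qq L a n := by
  rw [qq, qq, map_mul, map_pow, PowerSeries.map_C, hom_inv_pow ψ hL, PowerSeries.map_X]

theorem map_geo (hL : ψ (LR : R) = L) {a : ℕ} (ha : 1 ≤ a) (n : ℕ) :
    PowerSeries.map ψ (geo LR a n) = geo L a n := by
  apply geo_uniq ha
  have h1 := congrArg (PowerSeries.map ψ) (geo_mul LR ha n)
  rw [map_mul, map_sub, map_one, map_qq ψ hL] at h1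
  rw [mul_comm]
  exact h1

theorem map_mf (hL : ψ (LR : R) = L) (a n : ℕ) :
    PowerSeries.map ψ (mf LR a n) = mf L a n := by
  rcases Nat.eq_zero_or_pos a with h | h
  · rw [h, mf_zero, mf_zero, map_one]
  · rw [mf_pos LR h, mf_pos L h, map_mul, map_mul, PowerSeries.map_C, map_qq ψ hL, map_geo ψ hL h,
      map_sub, map_one, hL]

theorem map_mf2 (hL : ψ (LR : R) = L) (a n : ℕ) :
    PowerSeries.map ψ (mf2 LR a n) = mf2 L a n := by
  rw [mf2, mf2]
  split_ifs
  · exact map_mf ψ hL a n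
  · exact map_zero _

theorem map_evn (hL : ψ (LR : R) = L) (f : R⟦X⟧) :
    PowerSeries.map ψ (evn LR f) = evn L (PowerSeries.map ψ f) := by
  ext m
  rw [coeff_map, coeff_evn, coeff_evn, coeff_map]
  split_ifs
  · rw [map_mul, hom_inv_pow ψ hL]
  · exact map_zero _

theorem map_odd (hL : ψ (LR : R) = L) (f : R⟦X⟧) :
    PowerSeries.map ψ (odd LR f) = odd L (PowerSeries.map ψ f) := by
  ext m
  rw [coeff_map, coeff_odd, coeff_odd, coeff_map]
  split_ifs
  · exact map_zero _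
  · rw [map_mul, hom_inv_pow ψ hL]

theorem map_gtr (f : R⟦X⟧) : PowerSeries.map ψ (gtr f) = gtr (PowerSeries.map ψ f) := by
  ext m
  rw [coeff_map, gtr, gtr, coeff_mk, coeff_mk, map_sub, map_one, map_sum]
  simp only [coeff_map]

theorem map_sqZ (hL : ψ (LR : R) = L) (Z Y : R⟦X⟧) :
    PowerSeries.map ψ (sqZ LR Z Y) = sqZ L (PowerSeries.map ψ Z) (PowerSeries.map ψ Y) := by
  have h2 : ψ 2 = 2 := map_ofNat ψ 2
  rw [sqZ, sqZ]
  simp only [map_add, map_mul, map_sub, map_one, PowerSeries.map_C, map_evn ψ hL, map_odd ψ hL,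
    map_gtr, map_mf ψ hL, hL, h2]

theorem map_sqY (hL : ψ (LR : R) = L) (Z : R⟦X⟧) :
    PowerSeries.map ψ (sqY LR Z) = sqY L (PowerSeries.map ψ Z) := by
  rw [sqY, sqY]
  simp only [map_mul, map_sub, map_one, PowerSeries.map_C, map_evn ψ hL, map_gtr, hL]

theorem map_expand' (k : ℕ) (hk : k ≠ 0) (Z : R⟦X⟧) :
    PowerSeries.map ψ (expand k hk Z) = expand k hk (PowerSeries.map ψ Z) := by
  ext m
  rw [coeff_map, coeff_expand, coeff_expand]
  split_ifs
  · rw [coeff_map]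
  · exact map_zero _

theorem map_bq (hL : ψ (LR : R) = L) {clR : Finset (Option ℂ) → R} {cl : Finset (Option ℂ) → M}
    (hcl : ∀ B, ψ (clR B) = cl B) (B : Finset (Option ℂ)) :
    PowerSeries.map ψ (bq LR clR B) = bq L cl B := by
  have h2 : ψ 2 = 2 := map_ofNat ψ 2
  rw [bq, bq, PowerSeries.map_C]
  congr 1
  rw [map_add, map_sub, map_mul, map_add, map_one, hL, hcl, map_natCast, h2]

theorem map_den (hL : ψ (LR : R) = L) {K : ℕ → ℕ → Prop} {x : R⟦X⟧} (hx : x ∈ DenRing LR K) :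
    PowerSeries.map ψ x ∈ DenRing L K := by
  induction hx using Subring.closure_induction with
  | mem x hx =>
    rcases hx with ⟨P, rfl⟩ | ⟨a, n, ha, hn, hK, h⟩
    · refine Subring.subset_closure (Or.inl ⟨P.map ψ, ?_⟩)
      exact Polynomial.polynomial_map_coe
    · refine Subring.subset_closure (Or.inr ⟨a, n, ha, hn, hK, ?_⟩)
      have h1 := congrArg (PowerSeries.map ψ) h
      have h2 := map_qq ψ hL a n
      rw [qq, qq] at h2
      rw [map_mul, map_sub, map_one, h2] at h1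
      exact h1
  | zero => rw [map_zero]; exact Subring.zero_mem _
  | one => rw [map_one]; exact Subring.one_mem _
  | add x y _ _ hx hy => rw [map_add]; exact Subring.add_mem _ hx hy
  | neg x _ hx => rw [map_neg]; exact Subring.neg_mem _ hx
  | mul x y _ _ hx hy => rw [map_mul]; exact Subring.mul_mem _ hx hy

end Hom

section Germ

variable {κ R R' : Type} [CommRing R] [CommRing R']

theorem map_tf (F : R →+* R') (Φ : ℕ → ℕ → R) (a : ℕ) (t : Bool) :
    F (typeFactor Φ a t) = typeFactor (fun a n => F (Φ a n)) a t := by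
  rcases t with _ | _
  · exact map_one _
  · rfl

/-- the rules are compatible with homomorphisms -/
theorem germ_map (F : R →+* R') {Φ : ℕ → ℕ → R} {l : R} {a : ℕ} {h : MP} {g : Option κ → MP}
    {a0 n0 a1 n1 : ℕ} {Z : R} (hZ : GermZeta Φ l a h g a0 n0 a1 n1 Z) :
    GermZeta (fun a n => F (Φ a n)) (F l) a h g a0 n0 a1 n1 (F Z) := by
  classical
  induction hZ with
  | unit h g a0 n0 a1 n1 hh t ht =>
    rw [map_mul, map_mul, map_tf]
    exact GermZeta.unit h g a0 n0 a1 n1 hh t ht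
  | curveV h g a0 n0 mh mg hm q kh k hh hg h0 h1 hkh t ht =>
    rw [map_mul, map_mul, map_tf]
    exact GermZeta.curveV h g a0 n0 mh mg hm q kh k hh hg h0 h1 hkh t ht
  | curveU h g a1 n1 mh mg hm q kh k hh hg h0 h1 hkh t ht =>
    rw [map_mul, map_mul, map_tf]
    exact GermZeta.curveU h g a1 n1 mh mg hm q kh k hh hg h0 h1 hkh t ht
  | blowup h g a0 n0 a1 n1 mh mg hm hc gc hI gI hhc hgc hhI hgI S h0S t hS Zc ZI hz0 hcS hZI
      ih0 ihc ihI =>
    rw [map_add, map_add, map_sum, map_mul, map_mul, map_tf, map_sub, map_natCast]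
    exact GermZeta.blowup h g a0 n0 a1 n1 mh mg hm hc gc hI gI hhc hgc hhI hgI S h0S t hS
      (fun c => F (Zc c)) (F ZI) ih0 ihc ihI

/-- lifting of the twisted zeta function -/
theorem germx_lift (F : R →+* R') {Φ : ℕ → ℕ → R} {l : R} {β : Finset (Option ℂ) → R}
    {Φ' : ℕ → ℕ → R'} {l' : R'} {β' : Finset (Option ℂ) → R'} (hΦ : ∀ a n, F (Φ a n) = Φ' a n)
    (hl : F l = l') (hβ : ∀ B, F (β B) = β' B) {a : ℕ} {h : MP} {g : Option κ → MP}
    {a0 n0 a1 n1 : ℕ} {Z : R'} (hZ : GermX Φ' l' β' a h g a0 n0 a1 n1 Z) :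
    ∃ Z0 : R, GermX Φ l β a h g a0 n0 a1 n1 Z0 ∧ F Z0 = Z := by
  classical
  have htf : ∀ (a : ℕ) (t : Bool), F (typeFactor Φ a t) = typeFactor Φ' a t := by
    intro a t
    rcases t with _ | _
    · exact map_one _
    · exact hΦ a 1
  induction hZ with
  | unit h g a0 n0 a1 n1 hh t ht =>
    exact ⟨_, GermX.unit h g a0 n0 a1 n1 hh t ht, by rw [map_mul, map_mul, hΦ, hΦ, htf]⟩
  | curveV h g a0 n0 mh mg hm q kh k hh hg h0 h1 hkh t ht =>
    exact ⟨_, GermX.curveV h g a0 n0 mh mg hm q kh k hh hg h0 h1 hkh t ht, by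
      rw [map_mul, map_mul, hΦ, hΦ, htf]⟩
  | curveU h g a1 n1 mh mg hm q kh k hh hg h0 h1 hkh t ht =>
    exact ⟨_, GermX.curveU h g a1 n1 mh mg hm q kh k hh hg h0 h1 hkh t ht, by
      rw [map_mul, map_mul, hΦ, hΦ, htf]⟩
  | blowup h g a0 n0 a1 n1 mh mg hm hc gc hI gI hhc hgc hhI hgI S h0S t hS Zc ZI hz0 hcS hZI
      ih0 ihc ihI =>
    obtain ⟨Y0, hY0, e0⟩ := ih0
    obtain ⟨YI, hYI, eI⟩ := ihI
    have hch : ∀ c : ℂ, ∃ Y : R, (c ∈ S → c ≠ 0 →
        GermX Φ l β a (hc c) (gc c) (a0 + a1 + (mh + a * mg)) (n0 + n1) 0 1 Y ∧ F Y = Zc c) := by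
      intro c
      by_cases hcS : c ∈ S ∧ c ≠ 0
      · obtain ⟨Y, hY, e⟩ := ihc c hcS.1 hcS.2
        exact ⟨Y, fun _ _ => ⟨hY, e⟩⟩
      · exact ⟨0, fun h1 h2 => absurd ⟨h1, h2⟩ hcS⟩
    choose Y hY using hch
    let Yc : ℂ → R := fun c => if c = 0 then Y0 else Y c
    have hYc : ∀ c ∈ S, F (Yc c) = Zc c := by
      intro c hcS
      by_cases h : c = 0
      · simp only [Yc, if_pos h]
        rw [h]
        exact e0
      · simp only [Yc, if_neg h]
        exact (hY c hcS h).2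
    refine ⟨_, GermX.blowup h g a0 n0 a1 n1 mh mg hm hc gc hI gI hhc hgc hhI hgI S h0S t hS Yc
      YI ?_ ?_ hYI, ?_⟩
    · simp only [Yc, if_pos]
      exact hY0
    · intro c hcS h
      simp only [Yc, if_neg h]
      exact (hY c hcS h).1
    · rw [map_add, map_add, map_sum, eI, Finset.sum_congr rfl hYc, map_mul, map_mul, hΦ, htf,
        map_add, map_sub, hl, hβ, map_natCast]

end Germ

section Univ

variable {M : Type} [CommRing M] (L : Mˣ) (cl : Finset (Option ℂ) → M)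

/-- the homomorphism to `M` -/
noncomputable def psi : UR →+* M := MvPolynomial.eval₂Hom (phi L) cl

theorem psi_C (x : AA) : psi L cl (MvPolynomial.C x) = phi L x :=
  MvPolynomial.eval₂Hom_C _ _ _

theorem psi_UL : psi L cl (UL : UR) = L := by
  rw [UL_val, psi_C, phi_LL]

variable {L cl}

theorem psi_ucl (hc0 : ∀ B, B.card = 0 → cl B = 2 * ((L : M) + 1))
    (hc2 : ∀ B, B.card = 2 → cl B = (L : M) + 1) (B : Finset (Option ℂ)) :
    psi L cl (ucl B) = cl B := by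
  have h2 : psi L cl 2 = 2 := map_ofNat _ 2
  rw [ucl]
  split_ifs with h h'
  · rw [map_mul, map_add, map_one, psi_UL, h2, hc0 B h]
  · rw [map_add, map_one, psi_UL, hc2 B h']
  · exact MvPolynomial.eval₂Hom_X' _ _ _

/-- **The zeta functions come from the universal ring.** -/
theorem qz_lift (hc0 : ∀ B, B.card = 0 → cl B = 2 * ((L : M) + 1))
    (hc2 : ∀ B, B.card = 2 → cl B = (L : M) + 1) {σ : Type} {F : MvPolynomial σ ℂ} {p : σ → ℂ}
    {Z Y : M⟦X⟧} (hZ : QZ L cl σ F p Z Y) :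
    ∃ Z0 Y0 : PowerSeries UR, QZ UL ucl σ F p Z0 Y0 ∧ PowerSeries.map (psi L cl) Z0 = Z ∧
      PowerSeries.map (psi L cl) Y0 = Y := by
  have hL := psi_UL L cl
  induction hZ with
  | smooth F p h0 i h1 =>
    exact ⟨_, _, QZ.smooth F p h0 i h1, map_mf _ hL 1 1, map_zero _⟩
  | lin h f a ha hF P c h0 Z Y hZ hY =>
    obtain ⟨Z0, hZ0, rfl⟩ := exists_univA L hZ
    obtain ⟨Y0, hY0, rfl⟩ := germx_lift (PowerSeries.map (psi L cl)) (map_mf2 _ hL)
      (by rw [PowerSeries.map_C, hL]) (map_bq _ hL (psi_ucl hc0 hc2)) hY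
    refine ⟨PowerSeries.map (MvPolynomial.C : AA →+* UR) Z0, Y0,
      QZ.lin h f a ha hF P c h0 _ _ ?_ hY0, ?_, rfl⟩
    · have h1 := germ_map (PowerSeries.map (MvPolynomial.C : AA →+* UR)) hZ0
      have e1 : (fun a n => PowerSeries.map (MvPolynomial.C : AA →+* UR) (mf LL a n))
          = mf UL := by
        funext a n
        exact map_mf _ (L := UL) rfl a n
      have e2 : PowerSeries.map (MvPolynomial.C : AA →+* UR) (PowerSeries.C ((LL : AAˣ) : AA))
          = PowerSeries.C (UL : UR) := by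
        rw [PowerSeries.map_C]
        rfl
      rw [e1, e2] at h1
      exact h1
    · ext m
      rw [coeff_map, coeff_map, psi_C, Pool.Agent.W574.MO.Phi, coeff_map]
  | square G p Z Y hG ih =>
    obtain ⟨Z0, Y0, h1, rfl, rfl⟩ := ih
    exact ⟨_, _, QZ.square G p Z0 Y0 h1, map_sqZ _ hL Z0 Y0, map_sqY _ hL Z0⟩
  | pow k hk hk0 G p Z Y hG ih =>
    obtain ⟨Z0, Y0, h1, rfl, rfl⟩ := ih
    refine ⟨_, _, QZ.pow k hk hk0 G p Z0 Y0 h1, map_expand' _ k hk0 Z0, ?_⟩
    split_ifs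
    · exact map_expand' _ k hk0 Z0
    · exact map_expand' _ k hk0 Y0

end Univ

/-- the descent -/
theorem kb_mem {b : Polynomial ℂ} {x : PowerSeries UR}
    (hall : x ∈ DenRing UL (fun _ _ => True))
    (h : ∀ s : ℂ, b.eval s ≠ 0 → x ∈ DenRing UL (Kn s)) : x ∈ DenRing UL (Kb b) := by
  obtain ⟨s, hs, Q, hQ⟩ := Ufd.exists_denom UL hall
  refine Ufd.descent UL UL_ne (Kb b) x s (fun p hp => ⟨(hs p hp).1, (hs p hp).2.1⟩) ?_ Q hQ
  intro a' n ha' hn hne
  have hac : (a' : ℂ) ≠ 0 := Nat.cast_ne_zero.2 (by omega)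
  refine den_mono (fun a1 n1 ha1 hn1 hK => ?_) (h (-(n : ℂ) / a') hne)
  intro h3
  apply hK
  have h4 : (n : ℂ) * a1 = n1 * a' := by exact_mod_cast h3
  field_simp
  linear_combination -h4

end Pool.Agent.J4H46.MQ
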