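import Pool.Agent.W574.MO.Alg

set_option autoImplicit false
set_option linter.unusedSectionVars false
set_option linter.unusedVariables false

/-! # Even and odd parts of power series, rescaled by the square root of `L⁻¹` -/

namespace Pool.Agent.J4H46.MQ

open PowerSeries Pool.Agent.W574.MO

variable {M : Type} [CommRing M]

/-- `∑_k f_{2k} L⁻ᵏ T²ᵏ` for `f = ∑ f_m Tᵐ` -/
noncomputable def evn (L : Mˣ) (f : M⟦X⟧) : M⟦X⟧ :=
  PowerSeries.mk fun m => if Even m then ((L⁻¹ ^ (m / 2) : Mˣ) : M) * coeff m f else 0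

/-- `∑_k f_{2k+1} L⁻ᵏ T²ᵏ⁺¹` for `f = ∑ f_m Tᵐ` -/
noncomputable def odd (L : Mˣ) (f : M⟦X⟧) : M⟦X⟧ :=
  PowerSeries.mk fun m => if Even m then 0 else ((L⁻¹ ^ (m / 2) : Mˣ) : M) * coeff m f

variable (L : Mˣ)

theorem coeff_evn (f : M⟦X⟧) (m : ℕ) : coeff m (evn L f)
    = if Even m then ((L⁻¹ ^ (m / 2) : Mˣ) : M) * coeff m f else 0 := coeff_mk _ _

theorem coeff_odd (f : M⟦X⟧) (m : ℕ) : coeff m (odd L f)
    = if Even m then 0 else ((L⁻¹ ^ (m / 2) : Mˣ) : M) * coeff m f := coeff_mk _ _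

theorem evn_add (f g : M⟦X⟧) : evn L (f + g) = evn L f + evn L g := by
  ext m
  rw [map_add, coeff_evn, coeff_evn, coeff_evn, map_add]
  split_ifs
  · ring
  · ring

theorem odd_add (f g : M⟦X⟧) : odd L (f + g) = odd L f + odd L g := by
  ext m
  rw [map_add, coeff_odd, coeff_odd, coeff_odd, map_add]
  split_ifs
  · ring
  · ring

theorem evn_neg (f : M⟦X⟧) : evn L (-f) = - evn L f := by
  ext m
  rw [map_neg, coeff_evn, coeff_evn, map_neg]
  split_ifs
  · ring
  · ring

theorem odd_neg (f : M⟦X⟧) : odd L (-f) = - odd L f := by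
  ext m
  rw [map_neg, coeff_odd, coeff_odd, map_neg]
  split_ifs
  · ring
  · ring

theorem evn_sub (f g : M⟦X⟧) : evn L (f - g) = evn L f - evn L g := by
  rw [sub_eq_add_neg, evn_add, evn_neg, ← sub_eq_add_neg]

theorem odd_sub (f g : M⟦X⟧) : odd L (f - g) = odd L f - odd L g := by
  rw [sub_eq_add_neg, odd_add, odd_neg, ← sub_eq_add_neg]

theorem evn_zero : evn L (0 : M⟦X⟧) = 0 := by
  ext m
  rw [coeff_evn, map_zero, mul_zero]
  split_ifs <;> rfl

theorem odd_zero : odd L (0 : M⟦X⟧) = 0 := by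
  ext m
  rw [coeff_odd, map_zero, mul_zero]
  split_ifs <;> rfl

theorem evn_C (c : M) : evn L (C c : M⟦X⟧) = C c := by
  ext m
  rw [coeff_evn, coeff_C]
  by_cases h : m = 0
  · subst h
    simp
  · rw [if_neg h, mul_zero]
    split_ifs <;> rfl

theorem odd_C (c : M) : odd L (C c : M⟦X⟧) = 0 := by
  ext m
  rw [coeff_odd, coeff_C]
  by_cases h : m = 0
  · subst h
    simp
  · rw [if_neg h, mul_zero, map_zero]
    split_ifs <;> rfl

theorem evn_one : evn L (1 : M⟦X⟧) = 1 := by
  have := evn_C L (1 : M)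
  rwa [map_one] at this

theorem odd_one : odd L (1 : M⟦X⟧) = 0 := by
  have := odd_C L (1 : M)
  rwa [map_one] at this

theorem evn_X : evn L (X : M⟦X⟧) = 0 := by
  ext m
  rw [coeff_evn, coeff_X, map_zero]
  by_cases h : m = 1
  · subst h
    simp
  · rw [if_neg h, mul_zero]
    split_ifs <;> rfl

theorem odd_X : odd L (X : M⟦X⟧) = X := by
  ext m
  rw [coeff_odd, coeff_X]
  by_cases h : m = 1
  · subst h
    simp
  · rw [if_neg h, mul_zero]
    split_ifs <;> rfl

theorem pow_half (i j : ℕ) (e : ℕ) (h : (i + j) / 2 = i / 2 + j / 2 + e) :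
    (((L⁻¹ ^ ((i + j) / 2) : Mˣ)) : M)
      = ((L⁻¹ ^ e : Mˣ) : M) * (((L⁻¹ ^ (i / 2) : Mˣ) : M) * ((L⁻¹ ^ (j / 2) : Mˣ) : M)) := by
  rw [h, pow_add, pow_add, Units.val_mul, Units.val_mul]
  ring

theorem evn_mul (f g : M⟦X⟧) : evn L (f * g)
    = evn L f * evn L g + C ((L⁻¹ : Mˣ) : M) * (odd L f * odd L g) := by
  ext m
  rw [map_add, coeff_C_mul, coeff_evn, coeff_mul, coeff_mul, coeff_mul, Finset.mul_sum,
    Finset.mul_sum, ← Finset.sum_add_distrib]
  by_cases hm : Even m
  · rw [if_pos hm]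
    refine Finset.sum_congr rfl fun p hp => ?_
    obtain ⟨i, j⟩ := p
    have hij : i + j = m := Finset.HasAntidiagonal.mem_antidiagonal.1 hp
    subst hij
    simp only [coeff_evn, coeff_odd]
    by_cases hi : Even i
    · have hj : Even j := (Nat.even_add.1 hm).1 hi
      rw [if_pos hi, if_pos hj, if_pos hi, zero_mul, mul_zero, add_zero,
        pow_half L i j 0 (by obtain ⟨a, rfl⟩ := hi; obtain ⟨b, rfl⟩ := hj; omega), pow_zero,
        Units.val_one]
      ring
    · have hj : ¬ Even j := fun h => hi ((Nat.even_add.1 hm).2 h)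
      rw [if_neg hi, if_neg hj, if_neg hi, if_neg hj, zero_mul, zero_add,
        pow_half L i j 1 (by
          rw [Nat.not_even_iff_odd] at hi hj
          obtain ⟨a, rfl⟩ := hi; obtain ⟨b, rfl⟩ := hj; omega), pow_one]
      ring
  · rw [if_neg hm]
    symm
    refine Finset.sum_eq_zero fun p hp => ?_
    obtain ⟨i, j⟩ := p
    have hij : i + j = m := Finset.HasAntidiagonal.mem_antidiagonal.1 hp
    subst hij
    simp only [coeff_evn, coeff_odd]
    by_cases hi : Even i
    · have hj : ¬ Even j := fun h => hm (Nat.even_add.2 ⟨fun _ => h, fun _ => hi⟩)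
      simp only [if_neg hj, if_pos hi]
      ring
    · by_cases hj : Even j
      · simp only [if_neg hi, if_pos hj]
        ring
      · exact absurd (Nat.even_add.2 ⟨fun h => absurd h hi, fun h => absurd h hj⟩) hm

theorem odd_mul (f g : M⟦X⟧) : odd L (f * g) = evn L f * odd L g + odd L f * evn L g := by
  ext m
  rw [map_add, coeff_odd, coeff_mul, coeff_mul, coeff_mul, Finset.mul_sum,
    ← Finset.sum_add_distrib]
  by_cases hm : Even m
  · rw [if_pos hm]
    symm
    refine Finset.sum_eq_zero fun p hp => ?_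
    obtain ⟨i, j⟩ := p
    have hij : i + j = m := Finset.HasAntidiagonal.mem_antidiagonal.1 hp
    subst hij
    simp only [coeff_evn, coeff_odd]
    by_cases hi : Even i
    · have hj : Even j := (Nat.even_add.1 hm).1 hi
      simp only [if_pos hj, if_pos hi]
      ring
    · have hj : ¬ Even j := fun h => hi ((Nat.even_add.1 hm).2 h)
      simp only [if_neg hi, if_neg hj]
      ring
  · rw [if_neg hm]
    refine Finset.sum_congr rfl fun p hp => ?_
    obtain ⟨i, j⟩ := p
    have hij : i + j = m := Finset.HasAntidiagonal.mem_antidiagonal.1 hp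
    subst hij
    simp only [coeff_evn, coeff_odd]
    by_cases hi : Even i
    · have hj : ¬ Even j := fun h => hm (Nat.even_add.2 ⟨fun _ => h, fun _ => hi⟩)
      rw [if_pos hi, if_neg hj, if_pos hi, zero_mul, add_zero,
        pow_half L i j 0 (by
          rw [Nat.not_even_iff_odd] at hj
          obtain ⟨a, rfl⟩ := hi; obtain ⟨b, rfl⟩ := hj; omega), pow_zero, Units.val_one]
      ring
    · have hj : Even j := by
        by_contra hj
        exact hm (Nat.even_add.2 ⟨fun h => absurd h hi, fun h => absurd h hj⟩)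
      rw [if_neg hi, if_pos hj, if_neg hi, if_pos hj, zero_mul, zero_add,
        pow_half L i j 0 (by
          rw [Nat.not_even_iff_odd] at hi
          obtain ⟨a, rfl⟩ := hi; obtain ⟨b, rfl⟩ := hj; omega), pow_zero, Units.val_one]
      ring

/-- the even part of `X ^ (2 a)` -/
theorem evn_X_pow (a : ℕ) : evn L (X ^ (2 * a) : M⟦X⟧) = C ((L⁻¹ ^ a : Mˣ) : M) * X ^ (2 * a) := by
  ext m
  rw [coeff_evn, coeff_C_mul, coeff_X_pow]
  by_cases h : m = 2 * a
  · subst h
    rw [if_pos rfl, if_pos (even_two_mul a), Nat.mul_div_cancel_left a (by norm_num)]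
  · rw [if_neg h, mul_zero, mul_zero]
    split_ifs <;> rfl

theorem odd_X_pow (a : ℕ) : odd L (X ^ (2 * a) : M⟦X⟧) = 0 := by
  ext m
  rw [coeff_odd, coeff_X_pow, map_zero]
  by_cases h : m = 2 * a
  · subst h
    rw [if_pos (even_two_mul a)]
  · rw [if_neg h, mul_zero]
    split_ifs <;> rfl

theorem evn_Xm (f : M⟦X⟧) : evn L (X * f) = C ((L⁻¹ : Mˣ) : M) * (X * odd L f) := by
  rw [evn_mul, evn_X, odd_X, zero_mul, zero_add]

theorem odd_Xm (f : M⟦X⟧) : odd L (X * f) = X * evn L f := by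
  rw [odd_mul, evn_X, odd_X, zero_mul, zero_add]

theorem evn_Cm (c : M) (f : M⟦X⟧) : evn L (C c * f) = C c * evn L f := by
  rw [evn_mul, evn_C, odd_C, zero_mul, mul_zero, add_zero]

theorem odd_Cm (c : M) (f : M⟦X⟧) : odd L (C c * f) = C c * odd L f := by
  rw [odd_mul, evn_C, odd_C, zero_mul, add_zero]

variable {L} {K K' : ℕ → ℕ → Prop}

/-- the even and the odd parts of the polynomials -/
theorem pol_mem (P : Polynomial M) : evn L (P : M⟦X⟧) ∈ DenRing L K ∧
    odd L (P : M⟦X⟧) ∈ DenRing L K := by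
  induction P using Polynomial.induction_on with
  | C c =>
    rw [Polynomial.coe_C, evn_C, odd_C]
    exact ⟨C_mem _, Subring.zero_mem _⟩
  | add p q hp hq =>
    rw [Polynomial.coe_add, evn_add, odd_add]
    exact ⟨Subring.add_mem _ hp.1 hq.1, Subring.add_mem _ hp.2 hq.2⟩
  | monomial n c ih =>
    have e1 : ((Polynomial.C c * Polynomial.X ^ (n + 1) : Polynomial M) : M⟦X⟧)
        = X * ((Polynomial.C c * Polynomial.X ^ n : Polynomial M) : M⟦X⟧) := by
      rw [Polynomial.coe_mul, Polynomial.coe_mul, Polynomial.coe_pow, Polynomial.coe_pow,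
        Polynomial.coe_X, pow_succ]
      ring
    rw [e1, evn_Xm, odd_Xm]
    exact ⟨Subring.mul_mem _ (C_mem _) (Subring.mul_mem _ X_mem ih.2),
      Subring.mul_mem _ X_mem ih.1⟩

theorem evn_qq (a n : ℕ) : evn L (qq L (2 * a) n : M⟦X⟧) = qq L (2 * a) (n + a) := by
  rw [qq, evn_Cm, evn_X_pow, qq, pow_add, Units.val_mul, map_mul]
  ring

theorem odd_qq (a n : ℕ) : odd L (qq L (2 * a) n : M⟦X⟧) = 0 := by
  rw [qq, odd_Cm, odd_X_pow, mul_zero]

theorem geo_uniq {a n : ℕ} (ha : 1 ≤ a) {u : M⟦X⟧} (h : u * (1 - qq L a n) = 1) :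
    u = geo L a n := by
  have h1 := geo_mul L ha n
  calc u = u * ((1 - qq L a n) * geo L a n) := by rw [h1, mul_one]
    _ = u * (1 - qq L a n) * geo L a n := by ring
    _ = geo L a n := by rw [h, one_mul]

/-- the odd part of an even denominator -/
theorem odd_geo {a : ℕ} (ha : 1 ≤ a) (n : ℕ) : odd L (geo L (2 * a) n : M⟦X⟧) = 0 := by
  have h1 := geo_mul L (show 1 ≤ 2 * a by omega) n
  have h2 := congrArg (odd L) h1
  rw [odd_mul, evn_sub, odd_sub, evn_one, odd_one, evn_qq, odd_qq, sub_zero, zero_mul,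
    add_zero] at h2
  have h3 := geo_mul L (show 1 ≤ 2 * a by omega) (n + a)
  calc odd L (geo L (2 * a) n : M⟦X⟧)
      = (1 - qq L (2 * a) (n + a)) * geo L (2 * a) (n + a) * odd L (geo L (2 * a) n) := by
        rw [h3, one_mul]
    _ = geo L (2 * a) (n + a) * ((1 - qq L (2 * a) (n + a)) * odd L (geo L (2 * a) n)) := by ring
    _ = 0 := by rw [h2, mul_zero]

theorem evn_geo {a : ℕ} (ha : 1 ≤ a) (n : ℕ) :
    evn L (geo L (2 * a) n : M⟦X⟧) = geo L (2 * a) (n + a) := by
  have h1 := geo_mul L (show 1 ≤ 2 * a by omega) n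
  have h2 := congrArg (evn L) h1
  rw [evn_mul, evn_sub, odd_sub, evn_one, odd_one, evn_qq, odd_qq, sub_zero, zero_mul,
    mul_zero, add_zero] at h2
  exact geo_uniq (by omega) (by rw [mul_comm]; exact h2)

/-- an arbitrary denominator -/
theorem geo_double {a : ℕ} (ha : 1 ≤ a) (n : ℕ) :
    (geo L a n : M⟦X⟧) = (1 + qq L a n) * geo L (2 * a) (2 * n) := by
  symm
  apply geo_uniq ha
  have h1 := geo_mul L (show 1 ≤ 2 * a by omega) (2 * n)
  have h2 := qq_mul L a n a n
  rw [← two_mul, ← two_mul] at h2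
  linear_combination h1 - geo L (2 * a) (2 * n) * h2

/-- **The even and the odd parts**, rescaled by the square root of `L⁻¹`. -/
theorem ops_mem (hK : ∀ a n, 1 ≤ a → 1 ≤ n → K a n → K' (2 * a) (2 * n + a)) {f : M⟦X⟧}
    (hf : f ∈ DenRing L K) : evn L f ∈ DenRing L K' ∧ odd L f ∈ DenRing L K' := by
  induction hf using Subring.closure_induction with
  | mem x hx =>
    rcases hx with ⟨P, rfl⟩ | ⟨a, n, ha, hn, h1, h2⟩
    · exact pol_mem P
    · have h3 : x = geo L a n := geo_uniq ha h2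
      have h4 : (1 + qq L a n : M⟦X⟧)
          = ((1 + Polynomial.C ((L⁻¹ ^ n : Mˣ) : M) * Polynomial.X ^ a : Polynomial M) : M⟦X⟧) := by
        rw [qq]
        simp
      have h5 := pol_mem (L := L) (K := K')
        (1 + Polynomial.C ((L⁻¹ ^ n : Mˣ) : M) * Polynomial.X ^ a)
      rw [← h4] at h5
      have h6 : geo L (2 * a) (2 * n + a) ∈ DenRing L K' :=
        geo_mem (by omega) (by omega) (hK a n ha hn h1)
      rw [h3, geo_double ha, evn_mul, odd_mul, evn_geo ha, odd_geo ha, mul_zero, mul_zero,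
        mul_zero, add_zero, zero_add]
      exact ⟨Subring.mul_mem _ h5.1 h6, Subring.mul_mem _ h5.2 h6⟩
  | one =>
    rw [evn_one, odd_one]
    exact ⟨Subring.one_mem _, Subring.zero_mem _⟩
  | zero =>
    rw [evn_zero, odd_zero]
    exact ⟨Subring.zero_mem _, Subring.zero_mem _⟩
  | add x y _ _ hx hy =>
    rw [evn_add, odd_add]
    exact ⟨Subring.add_mem _ hx.1 hy.1, Subring.add_mem _ hx.2 hy.2⟩
  | neg x _ hx =>
    rw [evn_neg, odd_neg]
    exact ⟨Subring.neg_mem _ hx.1, Subring.neg_mem _ hx.2⟩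
  | mul x y _ _ hx hy =>
    rw [evn_mul, odd_mul]
    exact ⟨Subring.add_mem _ (Subring.mul_mem _ hx.1 hy.1) (Subring.mul_mem _ (C_mem _)
        (Subring.mul_mem _ hx.2 hy.2)),
      Subring.add_mem _ (Subring.mul_mem _ hx.1 hy.2) (Subring.mul_mem _ hx.2 hy.1)⟩

end Pool.Agent.J4H46.MQ
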